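import Pool.Agent.V5helper87.ZM.Pub
import Pool.Agent.V5helper11.ZM.CHM
import Pool.Agent.V5helper11.ZM.DEN
import Pool.Agent.V5helper18.ZM.FIL
import Pool.Agent.V5helper1.ZM.FRM
import Pool.Agent.V5helper17.ZM.PUC
import Pool.Agent.V5helper17.ZM.PUS
import Pool.Agent.V5helper81.ZM.HTP
import Pool.Agent.V5helper81.ZM.KEX
import Pool.Agent.V5helper98.ZM.KBD
import Pool.Agent.V5helper52.ZM.KGR
import Pool.Agent.V5helper76.ZM.NEU
import Pool.Agent.V5helper53.ZM.PUF
import Pool.Agent.V5helper6.ZM.SER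
import Pool.Agent.V5helper6.ZM.SUP
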