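import Pool.Agent.V5helper87.ZM.Stm

/-!
Project ZM: assembly of the general theorem.
-/

set_option autoImplicit false

open scoped Matrix Pointwise

namespace Pool.Agent.V5helper87.ZM

open Pool.Agent.H919R4.ZS Pool.Agent.TH38.CX Pool.Agent.TH38.ZT

noncomputable section

variable {G : Type} [Group G] {C : Subgroup G}

/-- the matrix of the composite `K F` -/
def KF {X : FinRes G} {Y : FinRes C} (R : Retract C X Y)
    (F : ∀ i, Matrix (Fin (Y.n i)) (Fin (X.n i)) (ZG G)) (i : ℕ) :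
    Matrix (Fin (Y.n i)) (Fin (Y.n i)) (ZG C) :=
  Matrix.of fun a j => ∑ b, lin (fun h => R.K i h b j) (F i a b)

theorem core (hPUF : S_PUF) (hSUP : S_SUP) (hNEU : S_NEU) (hSER : S_SER)
    {A B : Type} [NormedRing A] [NormedRing B] [CompleteSpace B] (fr : Frame C A B)
    {X : FinRes G} {Y : FinRes C} (R : Retract C X Y)
    (F : ∀ i, Matrix (Fin (Y.n i)) (Fin (X.n i)) (ZG G)) (i l : ℕ)
    (hR : Grow fr (R.K i)) (hR' : Grow fr (R.K (i + 1)))
    (D' : Matrix (Fin (X.n i)) (Fin l) (ZG G)) (s' : Matrix (Fin l) (Fin (X.n i)) A)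
    (s : Matrix (Fin (X.n i)) (Fin (X.n (i + 1))) A) (hD : X.d i * D' = 0)
    (hs : D'.map fr.α * s' + s * (X.d i).map fr.α = 1) (z : Fin (Y.n i) → B)
    (hz : ((fun a => fr.ψ (z a)) ᵥ* (F i).map fr.α) ᵥ* D'.map fr.α = 0) :
    ∃ y : Fin (Y.n (i + 1)) → B, y ᵥ* (Y.d i).map fr.β = z ᵥ* (KF R F i).map fr.β := by
  obtain ⟨σ, η, S, c, hS, h1, h2, h3, h4, h5⟩ := hNEU G C A B fr _ _ _ D' (X.d i) s' s hD hs
  obtain ⟨T, hT, hT'⟩ := (hSUP G C A B fr).2.2 _ _ (F i) z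
  obtain ⟨y, hy⟩ := hSER G C A B fr _ _ _ _ _ D' (X.d i) (Y.d i) (R.K i) (R.K (i + 1)) (R.equi i)
    (R.equi (i + 1)) (R.chain i) hR hR' σ η S c hS h1 h2 h3 h4 h5 _ T hT hT' hz
  refine ⟨y, ?_⟩
  rw [hy, hPUF G C A B fr _ _ _ (R.K i) (R.equi i) (F i) z]
  rfl

theorem genA (hPUF : S_PUF) (hSUP : S_SUP) (hNEU : S_NEU) (hSER : S_SER)
    (hCHM : S_CHM) (hHTP : S_HTP) {A B : Type} [NormedRing A] [NormedRing B] [CompleteSpace B]
    (fr : Frame C A B) (X : FinRes G) (Y : FinRes C) (R : Retract C X Y)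
    (i : ℕ) (hR : Grow fr (R.K i)) (hR' : Grow fr (R.K (i + 1)))
    (h : ∀ j ≤ i, ExAt X fr.α j) : ExAt Y fr.β i := by
  obtain ⟨F, hF0, hF⟩ := hCHM G C X Y
  obtain ⟨s, hs0, hs⟩ := contraction' X fr.α i h
  obtain ⟨hK0, hK⟩ := hHTP G C X Y R F hF0 hF
  obtain ⟨H, hH0, hH⟩ := exists_homotopy Y (KF R F) hK0 hK
  cases i with
  | zero =>
    intro z
    obtain ⟨y, hy⟩ := core hPUF hSUP hNEU hSER fr R F 0 0 hR hR' 0 0 (s 0) (Matrix.mul_zero _)
      (by
        rw [hs0, Matrix.mul_zero, zero_add]) z (funext fun a => a.elim0)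
    refine ⟨y - z ᵥ* (H 0).map fr.β, ?_⟩
    have h1 : (KF R F 0).map fr.β = 1 + (H 0).map fr.β * (Y.d 0).map fr.β := by
      rw [← Matrix.map_mul, ← hH0, Matrix.map_sub _ (fun a b => map_sub fr.β a b), map_one_mat]
      abel
    rw [Matrix.sub_vecMul, hy, h1, Matrix.vecMul_add, Matrix.vecMul_one, Matrix.vecMul_vecMul]
    abel
  | succ i =>
    intro z hz
    have h0 : ((fun a => fr.ψ (z a)) ᵥ* (F (i + 1)).map fr.α) ᵥ* (X.d i).map fr.α = 0 := by
      rw [Matrix.vecMul_vecMul, ← Matrix.map_mul, ← hF, Matrix.map_mul, ← Matrix.vecMul_vecMul]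
      have h1 : ((Y.d i).map (incl C)).map fr.α = ((Y.d i).map fr.β).map fr.ψ := by
        ext a b
        exact (fr.ψ_β _).symm
      have h2 : (fun a => fr.ψ (z a)) ᵥ* ((Y.d i).map fr.β).map fr.ψ = 0 := by
        funext b
        have h3 := congrArg fr.ψ (congrFun hz b)
        simp only [Matrix.vecMul, dotProduct, map_sum, map_mul, Pi.zero_apply, map_zero,
          Matrix.map_apply] at h3 ⊢
        exact h3
      rw [h1, h2, Matrix.zero_vecMul]
    obtain ⟨y, hy⟩ := core hPUF hSUP hNEU hSER fr R F (i + 1) _ hR hR' (X.d i) (s i) (s (i + 1))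
      (d_mul_d X i) (hs i le_rfl) z h0
    refine ⟨y - z ᵥ* (H (i + 1)).map fr.β, ?_⟩
    have h1 : (KF R F (i + 1)).map fr.β = 1 + ((Y.d i).map fr.β * (H i).map fr.β +
        (H (i + 1)).map fr.β * (Y.d (i + 1)).map fr.β) := by
      rw [← Matrix.map_mul, ← Matrix.map_mul, ← Matrix.map_add _ (fun a b => map_add fr.β a b), ← hH,
        Matrix.map_sub _ (fun a b => map_sub fr.β a b), map_one_mat]
      abel
    rw [Matrix.sub_vecMul, hy, h1, Matrix.vecMul_add, Matrix.vecMul_add, Matrix.vecMul_one,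
      ← Matrix.vecMul_vecMul z, hz, Matrix.zero_vecMul, ← Matrix.vecMul_vecMul]
    abel

/-- the general theorem: exactness passes from `C*_r(G)` to `C*_r(C)` -/
theorem gen (hFRM : S_FRM) (hPUF : S_PUF) (hSUP : S_SUP) (hNEU : S_NEU) (hSER : S_SER)
    (hCHM : S_CHM) (hHTP : S_HTP) (X : FinRes G) (Y : FinRes C) (R : Retract C X Y)
    (i : ℕ) (hR : ∀ (fr : Frame C (RedC G) (RedC C)), fr.β = toRed C →
      Grow fr (R.K i) ∧ Grow fr (R.K (i + 1)))
    (h : ∀ j ≤ i, ExAt X (toRed G) j) : ExAt Y (toRed C) i := by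
  obtain ⟨hc, fr, hα, hβ⟩ := hFRM G C
  have h1 : ∀ j ≤ i, ExAt X fr.α j := by
    intro j hj
    rw [hα]
    exact h j hj
  have h2 := genA hPUF hSUP hNEU hSER hCHM hHTP fr X Y R i (hR fr hβ).1 (hR fr hβ).2 h1
  rw [hβ] at h2
  exact h2

end

end Pool.Agent.V5helper87.ZM
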