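import Pool.Agent.H919R4.ZS.Deriv

/-!
Definitions for the final theorem of Project ZM (zero in the spectrum for mapping tori).
Rows everywhere: a matrix `M` over `ℤ[C]` is the map `x ↦ x · M` of left `ℤ[C]`-modules.
-/

set_option autoImplicit false

open scoped Matrix Pointwise

namespace Pool.Agent.V5helper87.ZM

open Pool.Agent.H919R4.ZS (FinRes RedC toRed toOp augm)

noncomputable section

/-- `H_j(G; C*_r(G)) ≠ 0` for some `j ≤ N`. -/
def NonzeroUpTo {G : Type} [Group G] (X : FinRes G) (N : ℕ) : Prop :=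
  ∃ j ≤ N, Nontrivial (X.homology (toRed G) j)

/-- A chain complex `⋯ → ℤ[C]^(n 1) → ℤ[C]^(n 0)` of free `ℤ[C]`-modules of finite rank. -/
structure Cx (C : Type) [Group C] where
  /-- the ranks -/
  n : ℕ → ℕ
  /-- the matrices of the differentials -/
  d : ∀ i, Matrix (Fin (n (i + 1))) (Fin (n i)) (MonoidAlgebra ℤ C)
  /-- `∂ ∂ = 0` -/
  d_mul_d : ∀ i, d (i + 1) * d i = 0

/-- The complex of a finite free resolution. -/
abbrev toCx {C : Type} [Group C] (Y : FinRes C) : Cx C where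
  n := Y.n
  d := Y.d
  d_mul_d := Pool.Agent.H919R4.ZS.d_mul_d Y

/-- `z` is a cycle of degree `i` of the complex `C*_r(C) ⊗ Y`. -/
def IsCycle {C : Type} [Group C] (Y : Cx C) : ∀ i : ℕ, (Fin (Y.n i) → RedC C) → Prop
  | 0, _ => True
  | i + 1, z => z ᵥ* (Y.d i).map (toRed C) = 0

/-- The map `p : Y_i → Z_i` (a matrix over `ℤ[C]`) maps some cycle of `C*_r(C) ⊗ Y` of degree `i` to an
element of `C*_r(C) ⊗ Z` which is not a boundary. If `p` is part of a chain map this says that the map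
`H_i(C*_r(C) ⊗ Y) → H_i(C*_r(C) ⊗ Z)` is not zero. -/
def NonzeroOn {C : Type} [Group C] (Y Z : Cx C) (i : ℕ)
    (p : Matrix (Fin (Y.n i)) (Fin (Z.n i)) (MonoidAlgebra ℤ C)) : Prop :=
  ∃ z, IsCycle Y i z ∧ ∀ y : Fin (Z.n (i + 1)) → RedC C,
    y ᵥ* (Z.d i).map (toRed C) ≠ z ᵥ* p.map (toRed C)

/-- A chain map `K : X → Z` of complexes of `ℤ[C]`-modules, where `C` is a subgroup of `G`, `X` a finite
free resolution of `ℤ` over `ℤ[G]`, and `Z` a complex of free `ℤ[C]`-modules of finite rank. `K i g a` is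
the image of `g e_a`, where `e_a` is the `a`-th basis element of `X_i = ℤ[G]^(n i)`. -/
structure EMap {G : Type} [Group G] (C : Subgroup G) (X : FinRes G) (Z : Cx C) where
  /-- the image of `g e_a` -/
  K : ∀ i, G → Fin (X.n i) → Fin (Z.n i) → MonoidAlgebra ℤ C
  /-- `K (c x) = c K (x)` for `c ∈ C` -/
  equivariant : ∀ (i : ℕ) (c : C) (g : G) (a : Fin (X.n i)) (j : Fin (Z.n i)),
    K i (c * g) a j = MonoidAlgebra.single c 1 * K i g a j
  /-- `K (∂ x) = ∂ K (x)` -/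
  chain : ∀ (i : ℕ) (g : G) (a : Fin (X.n (i + 1))),
    ∑ b, (X.d i a b).coeff.sum (fun h m => m • K i (g * h) b) = K (i + 1) g a ᵥ* Z.d i

/-- `K` has subexponential growth in the degrees in `D`: for every `i ∈ D`, every finite subset `S` of
`G` and every `l > 1` there is `c` such that for all `k` and all sets `T ⊆ S ^ k` of elements in pairwise
different right cosets of `C` the sum of the norms in `C*_r(C)` of the entries of `K i g`, `g ∈ T`, is
at most `c l ^ k`. -/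
def EMap.Subexponential {G : Type} [Group G] {C : Subgroup G} {X : FinRes G} {Z : Cx C}
    (K : EMap C X Z) (D : Set ℕ) : Prop :=
  ∀ i ∈ D, ∀ S : Set G, S.Finite → ∀ l : ℝ, 1 < l → ∃ c : ℝ, ∀ (k : ℕ) (T : Finset G),
    (T : Set G) ⊆ S ^ k → (∀ g ∈ T, ∀ h ∈ T, g * h⁻¹ ∈ C → g = h) →
    ∑ g ∈ T, ∑ a, ∑ b, ‖toOp C (K.K i g a b)‖ ≤ c * l ^ k

/-- The composite `K F : Y_i → Z_i` of `K` with a map `F : Y_i → X_i` (a matrix over `ℤ[G]`). -/
def EMap.comp {G : Type} [Group G] {C : Subgroup G} {X : FinRes G} {Z : Cx C} (K : EMap C X Z)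
    {i m : ℕ} (F : Matrix (Fin m) (Fin (X.n i)) (MonoidAlgebra ℤ G)) :
    Matrix (Fin m) (Fin (Z.n i)) (MonoidAlgebra ℤ C) :=
  Matrix.of fun a j => ∑ b, (F a b).coeff.sum (fun h m => m • K.K i h b j)

/-- The automorphism `x ↦ t x t⁻¹` of the ring `ℤ[C]`, where `C` is a normal subgroup and `t ∈ G`. -/
def conj {G : Type} [Group G] (C : Subgroup G) [C.Normal] (t : G) :
    MonoidAlgebra ℤ C →+* MonoidAlgebra ℤ C :=
  MonoidAlgebra.mapDomainRingHom ℤ (MulAut.conjNormal t : MulAut C).toMonoidHom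

/-- Let `p : Y → Z` be a chain map, `C` normal and `t ∈ G`. There are
* a chain map `y ↦ (t y t⁻¹) τ` of `Y`, over the identity of `ℤ`, which is semilinear with respect to the
  conjugation by `t`,
* semilinear maps `z ↦ (t z t⁻¹) τ'` of the `Z_j`, compatible with it: `p((t y t⁻¹) τ) = (t p(y) t⁻¹) τ'`,
such that the norms (in `C*_r(C)`) of the entries of the `k`-th powers of the maps `z ↦ (t z t⁻¹) τ'`
grow subexponentially with `k`, in the degrees in `D`. -/
def SubexpLift {G : Type} [Group G] {C : Subgroup G} [C.Normal] (Y : FinRes C) (Z : Cx C)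
    (p : ∀ i, Matrix (Fin (Y.n i)) (Fin (Z.n i)) (MonoidAlgebra ℤ C)) (t : G) (D : Set ℕ) : Prop :=
  ∃ (τ : ∀ j, Matrix (Fin (Y.n j)) (Fin (Y.n j)) (MonoidAlgebra ℤ C))
    (τ' : ∀ j, Matrix (Fin (Z.n j)) (Fin (Z.n j)) (MonoidAlgebra ℤ C)),
    (∀ a, ∑ j, augm C (τ 0 a j) * Y.aug j = Y.aug a) ∧
    (∀ j, (Y.d j).map (conj C t) * τ j = τ (j + 1) * Y.d j) ∧
    (∀ j, τ j * p j = (p j).map (conj C t) * τ' j) ∧
    ∀ j ∈ D, ∀ l : ℝ, 1 < l → ∃ c : ℝ, ∀ (k : ℕ) (a b : Fin (Z.n j)),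
      ‖toOp C (((fun z : Fin (Z.n j) → MonoidAlgebra ℤ C =>
        (fun b => conj C t (z b)) ᵥ* τ' j)^[k] (Pi.single a 1)) b)‖ ≤ c * l ^ k

end

end Pool.Agent.V5helper87.ZM
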