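import Pool.Agent.TH38.ZT.Trace
import Pool.Agent.TH38.CX.Cond

/-!
Project ZM: zero in the spectrum passes from a subgroup `C` to `G` along retractions of
subexponential growth (mapping tori with monodromy of subexponential growth).
-/

set_option autoImplicit false

open scoped Matrix Pointwise

namespace Pool.Agent.V5helper87.ZM

open Pool.Agent.H919R4.ZS Pool.Agent.TH38.CX

noncomputable section

/-- the integral group ring -/
abbrev ZG (G : Type) : Type := MonoidAlgebra ℤ G

/-- a group element as an element of the group ring -/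
def sg {G : Type} (g : G) : ZG G := MonoidAlgebra.single g 1

lemma sg_mul {G : Type} [Group G] (g h : G) : sg g * sg h = sg (g * h) := by
  simp [sg, MonoidAlgebra.single_mul_single]

lemma sg_one {G : Type} [Group G] : (sg (1 : G)) = 1 := rfl

/-- the linear extension `lin f r = ∑_h r(h) f(h)` -/
def lin {G M : Type} [AddCommGroup M] (f : G → M) (r : ZG G) : M :=
  r.coeff.sum fun h m => m • f h

section lin

variable {G M N : Type} [AddCommGroup M] [AddCommGroup N]

@[simp] lemma lin_zero (f : G → M) : lin f 0 = 0 := by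
  simp [lin]

@[simp] lemma lin_single (f : G → M) (h : G) (m : ℤ) : lin f (MonoidAlgebra.single h m) = m • f h := by
  rw [lin, MonoidAlgebra.coeff_single, Finsupp.sum_single_index (by simp)]

@[simp] lemma lin_sg (f : G → M) (h : G) : lin f (sg h) = f h := by
  rw [sg, lin_single, one_smul]

lemma lin_add (f : G → M) (r s : ZG G) : lin f (r + s) = lin f r + lin f s := by
  rw [lin, MonoidAlgebra.coeff_add, Finsupp.sum_add_index' (by simp) (fun _ _ _ => add_smul _ _ _)]
  rfl

/-- `lin f` as a homomorphism -/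
def linHom (f : G → M) : ZG G →+ M := ⟨⟨lin f, lin_zero f⟩, lin_add f⟩

lemma linHom_apply (f : G → M) (r : ZG G) : linHom f r = lin f r := rfl

lemma lin_sum {ι : Type} (f : G → M) (s : Finset ι) (r : ι → ZG G) :
    lin f (∑ i ∈ s, r i) = ∑ i ∈ s, lin f (r i) := map_sum (linHom f) r s

lemma lin_add_fun (f f' : G → M) (r : ZG G) : lin (fun h => f h + f' h) r = lin f r + lin f' r := by
  simp [lin, Finsupp.sum_add, smul_add]

lemma map_lin (φ : M →+ N) (f : G → M) (r : ZG G) : φ (lin f r) = lin (fun h => φ (f h)) r := by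
  rw [lin, lin, map_finsuppSum]
  simp only [map_zsmul]

lemma lin_apply {ι : Type} {P : ι → Type} [∀ i, AddCommGroup (P i)] (f : G → ∀ i, P i) (r : ZG G)
    (i : ι) : lin f r i = lin (fun h => f h i) r :=
  map_lin (Pi.evalAddMonoidHom P i) f r

end lin

lemma valR_injective (G : Type) [Group G] : Function.Injective (valR : RedC G → L2 G →L[ℂ] L2 G) :=
  fun _ _ h => Subtype.ext h

/-- the operator norm on `C*_r(G)` -/
instance instNormedRingRedC (G : Type) [Group G] : NormedRing (RedC G) :=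
  NormedRing.induced (RedC G) (L2 G →L[ℂ] L2 G) (valR : RedC G →+* (L2 G →L[ℂ] L2 G))
    (valR_injective G)

example (G : Type) [Group G] : (instNormedRingRedC G).toRing = instRingRedC G := rfl

lemma norm_redC {G : Type} [Group G] (x : RedC G) : ‖x‖ = ‖valR x‖ := rfl

variable {G : Type} [Group G] (C : Subgroup G)

/-- the right coset `C g` of `g` (represented by the left coset `g⁻¹ C`) -/
def cs (g : G) : G ⧸ C := QuotientGroup.mk g⁻¹

variable {C}

/-- The operator algebraic data: `A = C*_r(G)`, `B = C*_r(C)`, the inclusion `ψ : B → A` and the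
conditional expectation `e : A → B`. -/
structure Frame (C : Subgroup G) (A B : Type) [NormedRing A] [NormedRing B] where
  α : ZG G →+* A
  β : ZG C →+* B
  ψ : B →+* A
  e : A →+ B
  ψ_β : ∀ r, ψ (β r) = α (incl C r)
  e_ψ_mul : ∀ y x, e (ψ y * x) = y * e x
  e_mul_ψ : ∀ x y, e (x * ψ y) = e x * y
  e_one : e 1 = 1
  norm_e : ∀ x, ‖e x‖ ≤ ‖x‖
  e_not : ∀ g : G, g ∉ C → e (α (sg g)) = 0
  norm_α : ∀ g, ‖α (sg g)‖ ≤ 1
  norm_β : ∀ c, ‖β (sg c)‖ ≤ 1
  /-- the elements `y` such that the right multiplication by `y` moves supports by a finite set `S`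
  are dense -/
  dense : ∀ (x : A) (ε : ℝ), 0 < ε → ∃ y, ‖x - y‖ < ε ∧ ∃ S : Set G, S.Finite ∧
    ∀ (x' : A) (T : Set G),
      (∀ g : G, (∀ s ∈ T, g * s⁻¹ ∉ C) → e (x' * α (sg g⁻¹)) = 0) →
      ∀ g : G, (∀ s ∈ T * S, g * s⁻¹ ∉ C) → e (x' * y * α (sg g⁻¹)) = 0

section frame

variable {A B : Type} [NormedRing A] [NormedRing B] (fr : Frame C A B)

/-- `x` is supported in `C T`: the components `e (x g⁻¹)` vanish for `g ∉ C T` -/
def Supp (x : A) (T : Set G) : Prop :=
  ∀ g : G, (∀ s ∈ T, g * s⁻¹ ∉ C) → fr.e (x * fr.α (sg g⁻¹)) = 0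

/-- all components of the row `x` are supported in `C T` -/
def SuppV {m : ℕ} (x : Fin m → A) (T : Set G) : Prop := ∀ a, Supp fr (x a) T

/-- `K (c g) = c K g` -/
def Equi {m n : ℕ} (K : G → Fin m → Fin n → ZG C) : Prop :=
  ∀ (c : C) (g : G) (a : Fin m) (j : Fin n), K (c * g) a j = sg c * K g a j

/-- the map `K_*` on elements with finite support:
`K_* x = ∑_(C g) ∑_a e (x_a g⁻¹) K(g)_a`, the sum over the right cosets `C g`, `g = q.out⁻¹` -/
def push {m n : ℕ} (K : G → Fin m → Fin n → ZG C) (x : Fin m → A) : Fin n → B := fun j =>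
  ∑ᶠ q : G ⧸ C, ∑ a, fr.e (x a * fr.α (sg q.out)) * fr.β (K q.out⁻¹ a j)

/-- `K` has subexponential growth -/
def Grow {m n : ℕ} (K : G → Fin m → Fin n → ZG C) : Prop :=
  ∀ S : Set G, S.Finite → ∀ l : ℝ, 1 < l → ∃ c : ℝ, ∀ (k : ℕ) (Q : Finset (G ⧸ C)),
    (∀ q ∈ Q, ∃ g ∈ S ^ k, cs C g = q) →
    ∑ q ∈ Q, ∑ a, ∑ b, ‖fr.β (K q.out⁻¹ a b)‖ ≤ c * l ^ k

end frame

/-- A `C`-equivariant chain map `K : X → Y` over the identity of `ℤ`, where `X` is a finite free
resolution over `ℤ[G]` and `Y` is one over `ℤ[C]`; `K i g a = K_i(g e_a)`. -/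
structure Retract (C : Subgroup G) (X : FinRes G) (Y : FinRes C) where
  K : ∀ i, G → Fin (X.n i) → Fin (Y.n i) → ZG C
  equi : ∀ i, Equi (K i)
  aug : ∀ g a, eps Y (K 0 g a) = X.aug a
  chain : ∀ i g a, ∑ b, lin (fun h => K i (g * h) b) (X.d i a b) = K (i + 1) g a ᵥ* Y.d i

end

end Pool.Agent.V5helper87.ZM
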