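import Pool.Agent.V5helper87.ZM.Stm2

/-!
Project ZM, part 2: vanishing of the homology with coefficients in `C*_r(G)` from an action on an
acyclic complex.
-/

set_option autoImplicit false
set_option linter.unusedSectionVars false

open scoped Matrix

namespace Pool.Agent.V5helper87.ZM

open Pool.Agent.H919R4.ZS Pool.Agent.TH38.CX
open Pool.Agent.TH38.ZT (ExAt exAt_iff ex_comp ex_indep)

noncomputable section

variable {G : Type} [Group G]

section levels

variable {S : Type} [Ring S] (φ : MonoidAlgebra ℤ G →+* S) (N : ℕ)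

/-- the condition -/
def VQ (i : ℕ) {M : Type} [AddCommGroup M] [Module (MonoidAlgebra ℤ G) M] (R : Res G M) : Prop :=
  i ≤ N → ExR R φ (N - i)

variable {M : Type} [AddCommGroup M] [Module (MonoidAlgebra ℤ G) M]
variable {M' : Type} [AddCommGroup M'] [Module (MonoidAlgebra ℤ G) M']
variable {M'' : Type} [AddCommGroup M''] [Module (MonoidAlgebra ℤ G) M'']

theorem vstep (i : ℕ) (X' : Res G M') (X : Res G M)
    (f : M' →ₗ[MonoidAlgebra ℤ G] M) (g : M →ₗ[MonoidAlgebra ℤ G] M'')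
    (hf : Function.Injective f) (hg : Function.Surjective g)
    (hfg : ∀ m, g m = 0 ↔ ∃ m', f m' = m) (hQ : VQ φ N (i + 1) X') (hM : VQ φ N i X)
    (hb' : Bdd X') (hb : Bdd X) : ∃ R : Res G M'', VQ φ N i R ∧ Bdd R := by
  obtain ⟨F, hF0, hF⟩ := exists_chain X' X f
  refine ⟨cone X' X f g hf hg hfg F hF0 hF, ?_, ?_⟩
  · intro h1
    have h3 := hM h1
    rcases Nat.eq_zero_or_pos (N - i) with hz | hz
    · rw [hz] at h3 ⊢
      exact les3_zero X' X f g hf hg hfg F hF0 hF φ h3
    · obtain ⟨k, hk⟩ : ∃ k, N - i = k + 1 := ⟨N - i - 1, by omega⟩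
      have h4 := hQ (by omega)
      have h5 : N - (i + 1) = k := by omega
      rw [h5] at h4
      rw [hk] at h3 ⊢
      exact les3 X' X f g hf hg hfg F hF0 hF φ k h3 h4
  · obtain ⟨L', hL'⟩ := hb'
    obtain ⟨L, hL⟩ := hb
    refine ⟨L' + L + 1, fun l hl => ?_⟩
    cases l with
    | zero => omega
    | succ l =>
      have e1 := hL' l (by omega)
      have e2 := hL (l + 1) (by omega)
      change IsEmpty (X'.ι l ⊕ X.ι (l + 1))
      exact isEmpty_sum.2 ⟨e1, e2⟩

theorem van_ind (Y : AcyclicGComplex G) (RM : ∀ i, Res G (PM G (Y.E i)))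
    (hRM : ∀ i, VQ φ N i (RM i)) (hb : ∀ i, Bdd (RM i)) :
    ∀ j i, i + j = Y.len → ∃ R : Res G (LinearMap.range (bdl Y i)),
      VQ φ N (i + 1) R ∧ Bdd R := by
  intro j
  induction j with
  | zero =>
    intro i hi
    have hE : IsEmpty (Y.E (i + 1)) := Y.isEmpty _ (by omega)
    have hs : Subsingleton (PM G (Y.E (i + 1))) :=
      inferInstanceAs (Subsingleton (Y.E (i + 1) →₀ ℤ))
    have hs2 : Subsingleton (LinearMap.range (bdl Y i)) := by
      refine ⟨fun a b => ?_⟩
      obtain ⟨a, x, rfl⟩ := a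
      obtain ⟨b, y, rfl⟩ := b
      exact Subtype.ext (by rw [Subsingleton.elim x y])
    exact ⟨zeroRes _, fun _ => exR_zeroRes φ _ _,
      0, fun _ _ => inferInstanceAs (IsEmpty Empty)⟩
  | succ j ih =>
    intro i hi
    obtain ⟨R', hQ', hb'⟩ := ih (i + 1) (by omega)
    refine vstep φ N (i + 1) R' (RM (i + 1)) (LinearMap.range (bdl Y (i + 1))).subtype
      (bdl Y i).rangeRestrict (Submodule.injective_subtype _) (LinearMap.surjective_rangeRestrict _)
      ?_ hQ' (hRM (i + 1)) hb' (hb (i + 1))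
    intro m
    constructor
    · intro hm
      have h1 : bdl Y i m = 0 := congrArg Subtype.val hm
      obtain ⟨y, hy⟩ := (Y.exact_succ i m).1 h1
      exact ⟨⟨m, y, hy⟩, rfl⟩
    · rintro ⟨⟨m', y, hy⟩, rfl⟩
      apply Subtype.ext
      exact (Y.exact_succ i m').2 ⟨y, hy⟩

theorem van_res (Y : AcyclicGComplex G) (RM : ∀ i, Res G (PM G (Y.E i)))
    (hRM : ∀ i, VQ φ N i (RM i)) (hb : ∀ i, Bdd (RM i)) :
    ∃ R : Res G (Triv G), ExR R φ N ∧ Bdd R := by
  obtain ⟨R', hQ', hb'⟩ := van_ind φ N Y RM hRM hb Y.len 0 (by omega)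
  obtain ⟨e0⟩ := Y.nonempty
  obtain ⟨R, hR, hbR⟩ := vstep φ N 0 R' (RM 0) (LinearMap.range (bdl Y 0)).subtype
    (sumMap (Y.E 0)) (Submodule.injective_subtype _) (by
      intro m
      refine ⟨ofF (Finsupp.single e0 (tv m)), ?_⟩
      change Finsupp.sum (Finsupp.single e0 (tv m)) (fun _ r => r) = tv m
      exact Finsupp.sum_single_index rfl) (by
      intro m
      constructor
      · intro hm
        obtain ⟨y, hy⟩ := (Y.exact_zero m).1 hm
        exact ⟨⟨m, y, hy⟩, rfl⟩
      · rintro ⟨⟨m', y, hy⟩, rfl⟩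
        exact (Y.exact_zero m').2 ⟨y, hy⟩) hQ' (hRM 0) hb' (hb 0)
  exact ⟨R, hR (Nat.zero_le _), hbR⟩

end levels

lemma exAt_of_exR (R : Res G (Triv G)) (L : ℕ) (hL : ∀ j > L, IsEmpty (R.ι j)) {S : Type}
    [Ring S] (φ : MonoidAlgebra ℤ G →+* S) (k : ℕ) (h : ExR R φ k) : ExAt (toFin R L hL) φ k := by
  cases k with
  | zero =>
    intro x
    change Fin (Fintype.card (R.ι 0)) → S at x
    obtain ⟨y, hy⟩ := h (x ∘ (Fintype.equivFin (R.ι 0)))
    refine ⟨y ∘ (Fintype.equivFin (R.ι (0 + 1))).symm, ?_⟩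
    change (y ∘ (Fintype.equivFin (R.ι (0 + 1))).symm) ᵥ*
      ((R.d 0).map φ).submatrix (Fintype.equivFin (R.ι (0 + 1))).symm
        (Fintype.equivFin (R.ι 0)).symm = x
    rw [Matrix.submatrix_vecMul_equiv]
    have : (y ∘ (Fintype.equivFin (R.ι (0 + 1))).symm) ∘
        (Fintype.equivFin (R.ι (0 + 1))).symm.symm = y := by
      funext j; simp
    rw [this, hy]
    funext j; simp
  | succ i =>
    intro x hx
    change Fin (Fintype.card (R.ι (i + 1))) → S at x
    change x ᵥ* ((R.d i).map φ).submatrix (Fintype.equivFin (R.ι (i + 1))).symm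
        (Fintype.equivFin (R.ι i)).symm = 0 at hx
    rw [Matrix.submatrix_vecMul_equiv] at hx
    obtain ⟨y, hy⟩ := h (x ∘ (Fintype.equivFin (R.ι (i + 1)))) (by
      funext j
      have := congrFun hx (Fintype.equivFin (R.ι i) j)
      simpa using this)
    refine ⟨y ∘ (Fintype.equivFin (R.ι (i + 1 + 1))).symm, ?_⟩
    change (y ∘ (Fintype.equivFin (R.ι (i + 1 + 1))).symm) ᵥ*
      ((R.d (i + 1)).map φ).submatrix (Fintype.equivFin (R.ι (i + 1 + 1))).symm
        (Fintype.equivFin (R.ι (i + 1))).symm = x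
    rw [Matrix.submatrix_vecMul_equiv]
    have : (y ∘ (Fintype.equivFin (R.ι (i + 1 + 1))).symm) ∘
        (Fintype.equivFin (R.ι (i + 1 + 1))).symm.symm = y := by
      funext j; simp
    rw [this, hy]
    funext j; simp

/-- If the homology of the stabiliser of every `i`-cell vanishes in the degrees at most `N - i` (or its
dimension is less than `N - i`), for all `i ≤ N`, then `H_N(G; C*_r(G)) = 0`. -/
theorem van (Y : AcyclicGComplex G) (c : ℕ → ℕ) (rep : ∀ i, Fin (c i) → Y.E i)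
    (hrep : ∀ i (e : Y.E i), ∃! a, e ∈ MulAction.orbit G (rep i a))
    (X : ∀ i a, FinRes (MulAction.stabilizer G (rep i a)))
    (N : ℕ) (h : ∀ i ≤ N, ∀ a, Acyc (X i a) (N - i)) (X' : FinRes G) : ExAt X' (toRed G) N := by
  choose RM hRM hb using fun i => exists_perm_res (rep i) (hrep i) (X i)
  obtain ⟨R, hR, L, hL⟩ := van_res (toRed G) N Y RM (by
    intro i hi
    exact (hRM i (RedC G) (toRed G) _).2 fun a => ex_big (X i a) _ (h i hi a)) hb
  refine ex_indep (toFin R L hL) X' (toRed G) N ?_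
  exact exAt_of_exR R L hL _ _ hR

end

end Pool.Agent.V5helper87.ZM
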