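import Pool.Agent.V5helper87.ZM.All
import Pool.Agent.V5helper87.ZM.Van

/-!
Project ZM: the final theorems.
-/

set_option autoImplicit false

open scoped Matrix Pointwise

namespace Pool.Agent.V5helper87.ZM

open Pool.Agent.H919R4.ZS Pool.Agent.TH38.CX Pool.Agent.TH38.ZT

noncomputable section

/-- `H_j(G; C*_r(G)) ≠ 0` for some `j ≤ N`. -/
def NonzeroUpTo {G : Type} [Group G] (X : FinRes G) (N : ℕ) : Prop :=
  ∃ j ≤ N, Nontrivial (X.homology (toRed G) j)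

theorem nonzero_iff {G : Type} [Group G] (X : FinRes G) (N : ℕ) :
    ¬ NonzeroUpTo X N ↔ ∀ j ≤ N, ExAt X (toRed G) j := by
  constructor
  · intro h j hj
    rw [exAt_iff, ← not_nontrivial_iff_subsingleton]
    exact fun h' => h ⟨j, hj, h'⟩
  · rintro h ⟨j, hj, h'⟩
    exact not_nontrivial_iff_subsingleton.2 ((exAt_iff X (toRed G) j).1 (h j hj)) h'

theorem final1 {G : Type} [Group G] (C : Subgroup G) (X : FinRes G)
    (Y : FinRes C) (R : Retraction C X Y) (i : ℕ) (hR : R.Subexponential {i, i + 1})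
    (h : Nontrivial (Y.homology (toRed C) i)) : NonzeroUpTo X i := by
  by_contra hcon
  have h1 := (nonzero_iff X i).1 hcon
  refine not_nontrivial_iff_subsingleton.2 ((exAt_iff Y (toRed C) i).1 ?_) h
  exact part1 (Pool.Agent.V5helper1.ZM.t_FRM Pool.Agent.V5helper11.ZM.t_DEN)
    Pool.Agent.V5helper53.ZM.t_PUF Pool.Agent.V5helper6.ZM.t_SUP
    (Pool.Agent.V5helper76.ZM.t_NEU Pool.Agent.V5helper6.ZM.t_SUP)
    (Pool.Agent.V5helper6.ZM.t_SER Pool.Agent.V5helper17.ZM.t_PUS Pool.Agent.V5helper17.ZM.t_PUC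
      Pool.Agent.V5helper6.ZM.t_SUP)
    Pool.Agent.V5helper11.ZM.t_CHM Pool.Agent.V5helper81.ZM.t_HTP C X Y R i hR h1

theorem final2 {G : Type} [Group G] (π : G →* Multiplicative ℤ) (t : G)
    (ht : π t = Multiplicative.ofAdd 1) (X : FinRes G) (Y : FinRes π.ker) (i : ℕ)
    (h1 : SubexpLift Y t {i, i + 1}) (h2 : SubexpLift Y t⁻¹ {i, i + 1})
    (h : Nontrivial (Y.homology (toRed π.ker) i)) : NonzeroUpTo X i := by
  by_contra hcon
  have h3 := (nonzero_iff X i).1 hcon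
  refine not_nontrivial_iff_subsingleton.2 ((exAt_iff Y (toRed π.ker) i).1 ?_) h
  exact part2 (Pool.Agent.V5helper1.ZM.t_FRM Pool.Agent.V5helper11.ZM.t_DEN)
    Pool.Agent.V5helper53.ZM.t_PUF Pool.Agent.V5helper6.ZM.t_SUP
    (Pool.Agent.V5helper76.ZM.t_NEU Pool.Agent.V5helper6.ZM.t_SUP)
    (Pool.Agent.V5helper6.ZM.t_SER Pool.Agent.V5helper17.ZM.t_PUS Pool.Agent.V5helper17.ZM.t_PUC
      Pool.Agent.V5helper6.ZM.t_SUP)
    Pool.Agent.V5helper11.ZM.t_CHM Pool.Agent.V5helper81.ZM.t_HTP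
    (Pool.Agent.V5helper81.ZM.t_KEX Pool.Agent.V5helper18.ZM.FIL.t_FIL)
    Pool.Agent.V5helper98.ZM.t_KBD Pool.Agent.V5helper52.ZM.t_KGR π t ht X Y i h1 h2 h3

theorem final3 {G : Type} [Group G] (E : AcyclicGComplex G) (c : ℕ → ℕ)
    (rep : ∀ i, Fin (c i) → E.E i)
    (hrep : ∀ i (e : E.E i), ∃! a, e ∈ MulAction.orbit G (rep i a))
    (W : ∀ i a, FinRes (MulAction.stabilizer G (rep i a))) (X : FinRes G) (N : ℕ)
    (h : NonzeroUpTo X N) : ∃ i ≤ N, ∃ a, NonzeroUpTo (W i a) (N - i) := by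
  obtain ⟨j, hj, hj'⟩ := h
  by_contra hcon
  push Not at hcon
  refine not_nontrivial_iff_subsingleton.2 ((exAt_iff X (toRed G) j).1 ?_) hj'
  refine van E c rep hrep W j (fun i hi a => Or.inr fun k hk => ?_) X
  have h1 := (nonzero_iff (W i a) (N - i)).1 (hcon i (hi.trans hj) a) k (by omega)
  exact (exAt_iff _ _ _).1 h1

theorem final4 (hLIN : S_LIN) {G : Type} [Group G] (π : G →* Multiplicative ℤ) (t : G)
    (ht : π t = Multiplicative.ofAdd 1) (X : FinRes G) (Y : FinRes π.ker) (N : ℕ)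
    (h : NonzeroUpTo X N) : NonzeroUpTo Y N := by
  obtain ⟨E, c, rep, hrep, hst⟩ := hLIN G π t ht
  by_contra hcon
  have key : ∀ (H : Subgroup G), H = π.ker → ∃ W : FinRes H, ¬ NonzeroUpTo W N := by
    rintro H rfl
    exact ⟨Y, hcon⟩
  choose W hW using fun i a => key _ (hst i a)
  obtain ⟨i, hi, a, j, hj, h1⟩ := final3 E c rep hrep W X N h
  exact hW i a ⟨j, by omega, h1⟩

end

end Pool.Agent.V5helper87.ZM
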