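import Pool.Agent.V5helper87.ZM.Asm

/-!
Project ZM: the definitions of the final statement, and the reduction to the jobs.
-/

set_option autoImplicit false

open scoped Matrix Pointwise

namespace Pool.Agent.V5helper87.ZM

open Pool.Agent.H919R4.ZS Pool.Agent.TH38.CX Pool.Agent.TH38.ZT

noncomputable section

/-- A retraction of `X` onto `Y` (`X` a finite free resolution of `ℤ` over `ℤ[G]`, `Y` one over `ℤ[C]`,
for a subgroup `C` of `G`): a chain map `X → Y` of complexes of `ℤ[C]`-modules over the identity of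
`ℤ`.  `K i g a` is the image of `g e_a`, where `e_a` is the `a`-th basis element of `X_i = ℤ[G]^(n i)`.

If `X` is the cellular chain complex of the universal cover `M̃` of an aspherical complex `M`, and `Y` is
the one of `Ñ`, for a finite aspherical complex `N` with fundamental group `C`, then a
`C`-equivariant cellular map `M̃ → Ñ` gives a retraction. -/
structure Retraction {G : Type} [Group G] (C : Subgroup G) (X : FinRes G) (Y : FinRes C) where
  /-- the image of `g e_a` -/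
  K : ∀ i, G → Fin (X.n i) → Fin (Y.n i) → MonoidAlgebra ℤ C
  /-- `K (c x) = c K (x)` for `c ∈ C` -/
  equivariant : ∀ (i : ℕ) (c : C) (g : G) (a : Fin (X.n i)) (j : Fin (Y.n i)),
    K i (c * g) a j = MonoidAlgebra.single c 1 * K i g a j
  /-- `K` is compatible with the augmentations -/
  augmentation : ∀ (g : G) (a : Fin (X.n 0)), ∑ j, augm C (K 0 g a j) * Y.aug j = X.aug a
  /-- `K (∂ x) = ∂ K (x)` -/
  chain : ∀ (i : ℕ) (g : G) (a : Fin (X.n (i + 1))),
    ∑ b, (X.d i a b).coeff.sum (fun h m => m • K i (g * h) b) = K (i + 1) g a ᵥ* Y.d i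

/-- `R` has subexponential growth in the degrees in `D`: for every `i ∈ D`, every finite subset `S` of
`G` and every `l > 1` there is `c` such that for all `k` and all sets `T ⊆ S ^ k` of elements in pairwise
different right cosets of `C` the sum of the norms in `C*_r(C)` of the entries of `K i g`, `g ∈ T`, is
at most `c l ^ k`. -/
def Retraction.Subexponential {G : Type} [Group G] {C : Subgroup G} {X : FinRes G} {Y : FinRes C}
    (R : Retraction C X Y) (D : Set ℕ) : Prop :=
  ∀ i ∈ D, ∀ S : Set G, S.Finite → ∀ l : ℝ, 1 < l → ∃ c : ℝ, ∀ (k : ℕ) (T : Finset G),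
    (T : Set G) ⊆ S ^ k → (∀ g ∈ T, ∀ h ∈ T, g * h⁻¹ ∈ C → g = h) →
    ∑ g ∈ T, ∑ a, ∑ b, ‖toOp C (R.K i g a b)‖ ≤ c * l ^ k

/-- `C` is normal, `t ∈ G`. There is a chain map `y ↦ (t y t⁻¹) τ` of `Y`, over the identity of `ℤ`, which
is semilinear with respect to the conjugation `c ↦ t c t⁻¹` by `t`, and whose `k`-th power has
subexponentially growing norm as `k → ∞`, in the degrees in `D` (norms in `C*_r(C)` of the entries).

If `Y` is the cellular chain complex of the universal cover of `N`, and the conjugation by `t` is the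
automorphism of `C = π_1(N)` induced by a homotopy equivalence `f` of `N`, then a cellular map
homotopic to `f` gives such a chain map, and the powers correspond to the iterates. -/
def SubexpLift {G : Type} [Group G] {C : Subgroup G} [C.Normal] (Y : FinRes C) (t : G)
    (D : Set ℕ) : Prop :=
  ∃ τ : ∀ j, Matrix (Fin (Y.n j)) (Fin (Y.n j)) (MonoidAlgebra ℤ C), IsLift Y t τ ∧
    ∀ j ∈ D, ∀ l : ℝ, 1 < l → ∃ c : ℝ, ∀ (k : ℕ) (a b : Fin (Y.n j)),
      ‖toOp C ((sem C t (τ j))^[k] (Pi.single a 1) b)‖ ≤ c * l ^ k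

/-- the retraction in the form of the jobs -/
def Retraction.toRetract {G : Type} [Group G] {C : Subgroup G} {X : FinRes G} {Y : FinRes C}
    (R : Retraction C X Y) : Retract C X Y where
  K := R.K
  equi := R.equivariant
  aug := R.augmentation
  chain := R.chain

theorem norm_toRed {G : Type} [Group G] (r : MonoidAlgebra ℤ G) : ‖toRed G r‖ = ‖toOp G r‖ := rfl

theorem grow_of {G : Type} [Group G] {C : Subgroup G} {X : FinRes G} {Y : FinRes C}
    (R : Retraction C X Y) {D : Set ℕ} (hR : R.Subexponential D) (fr : Frame C (RedC G) (RedC C))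
    (hβ : fr.β = toRed C) (i : ℕ) (hi : i ∈ D) : Grow fr (R.toRetract.K i) := by
  classical
  intro S hS l hl
  obtain ⟨c, hc⟩ := hR i hi S hS l hl
  refine ⟨c, fun k Q hQ => ?_⟩
  choose! g hg hg' using hQ
  have hinj : Set.InjOn g (Q : Set (G ⧸ C)) := by
    intro q hq q' hq' h
    rw [← hg' q hq, ← hg' q' hq', h]
  have h1 := hc k (Q.image g) (by
      intro x hx
      obtain ⟨q, hq, rfl⟩ := Finset.mem_image.1 (Finset.mem_coe.1 hx)
      exact hg q hq) (by
      intro x hx y hy hxy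
      obtain ⟨q, hq, rfl⟩ := Finset.mem_image.1 hx
      obtain ⟨q', hq', rfl⟩ := Finset.mem_image.1 hy
      have h2 : q = q' := by
        rw [← hg' q hq, ← hg' q' hq', cs, cs, QuotientGroup.eq, inv_inv]
        exact hxy
      rw [h2])
  rw [Finset.sum_image hinj] at h1
  refine le_trans (Finset.sum_le_sum fun q hq => Finset.sum_le_sum fun a _ =>
    Finset.sum_le_sum fun b _ => ?_) h1
  have h2 : q.out⁻¹ * (g q)⁻¹ ∈ C := by
    have h3 : (QuotientGroup.mk q.out : G ⧸ C) = QuotientGroup.mk (g q)⁻¹ := by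
      rw [QuotientGroup.out_eq']
      exact (hg' q hq).symm
    rw [QuotientGroup.eq] at h3
    exact h3
  have h4 : R.K i q.out⁻¹ a b = sg ⟨_, h2⟩ * R.K i (g q) a b := by
    have h5 := R.equivariant i ⟨_, h2⟩ (g q) a b
    rw [← sg] at h5
    rw [← h5]
    congr 1
    simp
  change ‖fr.β (R.K i q.out⁻¹ a b)‖ ≤ _
  rw [h4, map_mul]
  refine (norm_mul_le _ _).trans ?_
  have h6 : ‖fr.β (R.K i (g q) a b)‖ = ‖toOp C (R.K i (g q) a b)‖ := by
    rw [hβ]
    rfl
  rw [← h6]
  calc _ ≤ 1 * ‖fr.β (R.K i (g q) a b)‖ :=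
        mul_le_mul_of_nonneg_right (fr.norm_β _) (norm_nonneg _)
    _ = _ := one_mul _

/-- the general theorem -/
theorem part1 (hFRM : S_FRM) (hPUF : S_PUF) (hSUP : S_SUP) (hNEU : S_NEU) (hSER : S_SER)
    (hCHM : S_CHM) (hHTP : S_HTP) {G : Type} [Group G] (C : Subgroup G) (X : FinRes G)
    (Y : FinRes C) (R : Retraction C X Y) (i : ℕ) (hR : R.Subexponential {i, i + 1})
    (h : ∀ j ≤ i, ExAt X (toRed G) j) : ExAt Y (toRed C) i :=
  gen hFRM hPUF hSUP hNEU hSER hCHM hHTP X Y R.toRetract i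
    (fun fr hβ => ⟨grow_of R hR fr hβ i (by simp), grow_of R hR fr hβ (i + 1) (by simp)⟩) h

/-- mapping tori -/
theorem part2 (hFRM : S_FRM) (hPUF : S_PUF) (hSUP : S_SUP) (hNEU : S_NEU) (hSER : S_SER)
    (hCHM : S_CHM) (hHTP : S_HTP) (hKEX : S_KEX) (hKBD : S_KBD) (hKGR : S_KGR)
    {G : Type} [Group G] (π : G →* Multiplicative ℤ) (t : G) (ht : π t = Multiplicative.ofAdd 1)
    (X : FinRes G) (Y : FinRes π.ker) (i : ℕ) (h1 : SubexpLift Y t {i, i + 1})
    (h2 : SubexpLift Y t⁻¹ {i, i + 1})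
    (h : ∀ j ≤ i, ExAt X (toRed G) j) : ExAt Y (toRed π.ker) i := by
  obtain ⟨τ, hτ, hτg⟩ := h1
  obtain ⟨σ, hσ, hσg⟩ := h2
  have p1 : ∀ g h, (π (g * h)).toAdd = (π g).toAdd + (π h).toAdd := fun g h => by
    rw [map_mul, toAdd_mul]
  have p2 : ∀ g, g ∈ π.ker ↔ (π g).toAdd = 0 := fun g => by
    rw [MonoidHom.mem_ker]
    exact Iff.rfl
  have p3 : (π t).toAdd = 1 := by rw [ht]; rfl
  obtain ⟨R, hR⟩ := hKEX G π.ker (fun g => (π g).toAdd) t p1 p2 p3 X Y τ σ hτ hσ
  suffices key : ∀ fr : Frame π.ker (RedC G) (RedC π.ker), fr.β = toRed π.ker →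
      ∀ i' ∈ ({i, i + 1} : Set ℕ), Grow fr (R.K i') from
    gen hFRM hPUF hSUP hNEU hSER hCHM hHTP X Y R i
      (fun fr hβ => ⟨key fr hβ i (by simp), key fr hβ (i + 1) (by simp)⟩) h
  intro fr hβ i hi
  refine hKGR G π.ker (fun g => (π g).toAdd) t p1 p2 p3 _ _ fr _ _ (R.K i) ?_
  refine hKBD G π.ker (fun g => (π g).toAdd) t p1 p2 p3 _ fr.β fr.norm_β _ _ (τ i) (σ i) (R.K i)
    (R.equi i) (hR i) ?_ ?_
  · intro l hl
    obtain ⟨c, hc⟩ := hτg i hi l hl
    refine ⟨c, fun k a b => ?_⟩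
    rw [hβ]
    exact hc k a b
  · intro l hl
    obtain ⟨c, hc⟩ := hσg i hi l hl
    refine ⟨c, fun k a b => ?_⟩
    rw [hβ]
    exact hc k a b

end

end Pool.Agent.V5helper87.ZM
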