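import Pool.Agent.V5helper87.ZM.Asm
import Pool.Agent.V5helper87.ZM.Def2
import Pool.Agent.V5helper87.ZM.Van
import Pool.Agent.V5helper11.ZM.CHM
import Pool.Agent.V5helper11.ZM.DEN
import Pool.Agent.V5helper18.ZM.FIL
import Pool.Agent.V5helper1.ZM.FRM
import Pool.Agent.V5helper17.ZM.PUC
import Pool.Agent.V5helper17.ZM.PUS
import Pool.Agent.V5helper81.ZM.HTP
import Pool.Agent.V5helper81.ZM.KEX
import Pool.Agent.V5helper98.ZM.KBD
import Pool.Agent.V5helper52.ZM.KGR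
import Pool.Agent.V5helper76.ZM.NEU
import Pool.Agent.V5helper53.ZM.PUF
import Pool.Agent.V5helper6.ZM.SER
import Pool.Agent.V5helper6.ZM.SUP
import Pool.Agent.V5helper37.ZM.LIN

/-!
Project ZM: the relative form of the theorem.
-/

set_option autoImplicit false

open scoped Matrix Pointwise

namespace Pool.Agent.V5helper87.ZM

open Pool.Agent.H919R4.ZS Pool.Agent.TH38.CX Pool.Agent.TH38.ZT

noncomputable section

theorem hFRM : S_FRM := Pool.Agent.V5helper1.ZM.t_FRM Pool.Agent.V5helper11.ZM.t_DEN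
theorem hPUF : S_PUF := Pool.Agent.V5helper53.ZM.t_PUF
theorem hSUP : S_SUP := Pool.Agent.V5helper6.ZM.t_SUP
theorem hNEU : S_NEU := Pool.Agent.V5helper76.ZM.t_NEU hSUP
theorem hSER : S_SER := Pool.Agent.V5helper6.ZM.t_SER Pool.Agent.V5helper17.ZM.t_PUS
  Pool.Agent.V5helper17.ZM.t_PUC hSUP
theorem hCHM : S_CHM := Pool.Agent.V5helper11.ZM.t_CHM
theorem hHTP : S_HTP := Pool.Agent.V5helper81.ZM.t_HTP
theorem hKEX : S_KEX := Pool.Agent.V5helper81.ZM.t_KEX Pool.Agent.V5helper18.ZM.FIL.t_FIL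
theorem hKBD : S_KBD := Pool.Agent.V5helper98.ZM.t_KBD
theorem hKGR : S_KGR := Pool.Agent.V5helper52.ZM.t_KGR
theorem hLIN : S_LIN := Pool.Agent.V5helper37.ZM.t_LIN

variable {G : Type} [Group G] {C : Subgroup G}

/-- the composite `K F` -/
def KFm {X : FinRes G} {Y Z : Cx C} (K : EMap C X Z)
    (F : ∀ i, Matrix (Fin (Y.n i)) (Fin (X.n i)) (ZG G)) (i : ℕ) :
    Matrix (Fin (Y.n i)) (Fin (Z.n i)) (ZG C) :=
  Matrix.of fun a j => ∑ b, lin (fun h => K.K i h b j) (F i a b)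

theorem coreR {A B : Type} [NormedRing A] [NormedRing B] [CompleteSpace B] (fr : Frame C A B)
    {X : FinRes G} {Y Z : Cx C} (K : EMap C X Z)
    (F : ∀ i, Matrix (Fin (Y.n i)) (Fin (X.n i)) (ZG G)) (i l : ℕ)
    (hR : Grow fr (K.K i)) (hR' : Grow fr (K.K (i + 1)))
    (D' : Matrix (Fin (X.n i)) (Fin l) (ZG G)) (s' : Matrix (Fin l) (Fin (X.n i)) A)
    (s : Matrix (Fin (X.n i)) (Fin (X.n (i + 1))) A) (hD : X.d i * D' = 0)
    (hs : D'.map fr.α * s' + s * (X.d i).map fr.α = 1) (z : Fin (Y.n i) → B)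
    (hz : ((fun a => fr.ψ (z a)) ᵥ* (F i).map fr.α) ᵥ* D'.map fr.α = 0) :
    ∃ y : Fin (Z.n (i + 1)) → B, y ᵥ* (Z.d i).map fr.β = z ᵥ* (KFm K F i).map fr.β := by
  obtain ⟨σ, η, S, c, hS, h1, h2, h3, h4, h5⟩ := hNEU G C A B fr _ _ _ D' (X.d i) s' s hD hs
  obtain ⟨T, hT, hT'⟩ := (hSUP G C A B fr).2.2 _ _ (F i) z
  obtain ⟨y, hy⟩ := hSER G C A B fr _ _ _ _ _ D' (X.d i) (Z.d i) (K.K i) (K.K (i + 1))
    (K.equivariant i) (K.equivariant (i + 1)) (K.chain i) hR hR' σ η S c hS h1 h2 h3 h4 h5 _ T hT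
    hT' hz
  refine ⟨y, ?_⟩
  rw [hy, hPUF G C A B fr _ _ _ (K.K i) (K.equivariant i) (F i) z]
  rfl

/-- `z` is a cycle over `B` -/
def CycB {B : Type} [Ring B] (β : ZG C →+* B) (Y : Cx C) : ∀ i : ℕ, (Fin (Y.n i) → B) → Prop
  | 0, _ => True
  | i + 1, z => z ᵥ* (Y.d i).map β = 0

theorem genR {A B : Type} [NormedRing A] [NormedRing B] [CompleteSpace B]
    (fr : Frame C A B) (X : FinRes G) (Y Z : Cx C) (K : EMap C X Z)
    (F : ∀ i, Matrix (Fin (Y.n i)) (Fin (X.n i)) (ZG G))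
    (hF : ∀ i, (Y.d i).map (incl C) * F i = F (i + 1) * X.d i)
    (i : ℕ) (hR : Grow fr (K.K i)) (hR' : Grow fr (K.K (i + 1)))
    (h : ∀ j ≤ i, ExAt X fr.α j) (z : Fin (Y.n i) → B) (hz : CycB fr.β Y i z) :
    ∃ y : Fin (Z.n (i + 1)) → B, y ᵥ* (Z.d i).map fr.β = z ᵥ* (KFm K F i).map fr.β := by
  obtain ⟨s, hs0, hs⟩ := contraction' X fr.α i h
  cases i with
  | zero =>
    exact coreR fr K F 0 0 hR hR' 0 0 (s 0) (Matrix.mul_zero _)
      (by rw [hs0, Matrix.mul_zero, zero_add]) z (funext fun a => a.elim0)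
  | succ i =>
    have h0 : ((fun a => fr.ψ (z a)) ᵥ* (F (i + 1)).map fr.α) ᵥ* (X.d i).map fr.α = 0 := by
      rw [Matrix.vecMul_vecMul, ← Matrix.map_mul, ← hF, Matrix.map_mul, ← Matrix.vecMul_vecMul]
      have h1 : ((Y.d i).map (incl C)).map fr.α = ((Y.d i).map fr.β).map fr.ψ := by
        ext a b
        exact (fr.ψ_β _).symm
      have h2 : (fun a => fr.ψ (z a)) ᵥ* ((Y.d i).map fr.β).map fr.ψ = 0 := by
        funext b
        have h3 := congrArg fr.ψ (congrFun hz b)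
        simp only [Matrix.vecMul, dotProduct, map_sum, map_mul, Pi.zero_apply, map_zero,
          Matrix.map_apply] at h3 ⊢
        exact h3
      rw [h1, h2, Matrix.zero_vecMul]
    exact coreR fr K F (i + 1) _ hR hR' (X.d i) (s i) (s (i + 1)) (d_mul_d X i) (hs i le_rfl) z h0

theorem grow_ofE {X : FinRes G} {Z : Cx C} (R : EMap C X Z) {D : Set ℕ} (hR : R.Subexponential D)
    (fr : Frame C (RedC G) (RedC C)) (hβ : fr.β = toRed C) (i : ℕ) (hi : i ∈ D) :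
    Grow fr (R.K i) := by
  classical
  intro S hS l hl
  obtain ⟨c, hc⟩ := hR i hi S hS l hl
  refine ⟨c, fun k Q hQ => ?_⟩
  choose! g hg hg' using hQ
  have hinj : Set.InjOn g (Q : Set (G ⧸ C)) := by
    intro q hq q' hq' h
    rw [← hg' q hq, ← hg' q' hq', h]
  have h1 := hc k (Q.image g) (by
      intro x hx
      obtain ⟨q, hq, rfl⟩ := Finset.mem_image.1 (Finset.mem_coe.1 hx)
      exact hg q hq) (by
      intro x hx y hy hxy
      obtain ⟨q, hq, rfl⟩ := Finset.mem_image.1 hx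
      obtain ⟨q', hq', rfl⟩ := Finset.mem_image.1 hy
      have h2 : q = q' := by
        rw [← hg' q hq, ← hg' q' hq', cs, cs, QuotientGroup.eq, inv_inv]
        exact hxy
      rw [h2])
  rw [Finset.sum_image hinj] at h1
  refine le_trans (Finset.sum_le_sum fun q hq => Finset.sum_le_sum fun a _ =>
    Finset.sum_le_sum fun b _ => ?_) h1
  have h2 : q.out⁻¹ * (g q)⁻¹ ∈ C := by
    have h3 : (QuotientGroup.mk q.out : G ⧸ C) = QuotientGroup.mk (g q)⁻¹ := by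
      rw [QuotientGroup.out_eq']
      exact (hg' q hq).symm
    rw [QuotientGroup.eq] at h3
    exact h3
  have h4 : R.K i q.out⁻¹ a b = sg ⟨_, h2⟩ * R.K i (g q) a b := by
    have h5 := R.equivariant i ⟨_, h2⟩ (g q) a b
    rw [← sg] at h5
    rw [← h5]
    congr 1
    simp
  change ‖fr.β (R.K i q.out⁻¹ a b)‖ ≤ _
  rw [h4, map_mul]
  refine (norm_mul_le _ _).trans ?_
  have h6 : ‖fr.β (R.K i (g q) a b)‖ = ‖toOp C (R.K i (g q) a b)‖ := by
    rw [hβ]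
    rfl
  rw [← h6]
  calc _ ≤ 1 * ‖fr.β (R.K i (g q) a b)‖ :=
        mul_le_mul_of_nonneg_right (fr.norm_β _) (norm_nonneg _)
    _ = _ := one_mul _

theorem nonzero_iff {G : Type} [Group G] (X : FinRes G) (N : ℕ) :
    ¬ NonzeroUpTo X N ↔ ∀ j ≤ N, ExAt X (toRed G) j := by
  constructor
  · intro h j hj
    rw [exAt_iff, ← not_nontrivial_iff_subsingleton]
    exact fun h' => h ⟨j, hj, h'⟩
  · rintro h ⟨j, hj, h'⟩
    exact not_nontrivial_iff_subsingleton.2 ((exAt_iff X (toRed G) j).1 (h j hj)) h'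

/-- the abstract form of the relative theorem for `C*_r` -/
theorem genRed (X : FinRes G) (Y Z : Cx C) (K : EMap C X Z)
    (F : ∀ i, Matrix (Fin (Y.n i)) (Fin (X.n i)) (ZG G))
    (hF : ∀ i, (Y.d i).map (incl C) * F i = F (i + 1) * X.d i)
    (i : ℕ) (hR : ∀ (fr : Frame C (RedC G) (RedC C)), fr.β = toRed C →
      Grow fr (K.K i) ∧ Grow fr (K.K (i + 1)))
    (h : ¬ NonzeroUpTo X i) (z : Fin (Y.n i) → RedC C) (hz : IsCycle Y i z) :
    ∃ y : Fin (Z.n (i + 1)) → RedC C,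
      y ᵥ* (Z.d i).map (toRed C) = z ᵥ* (KFm K F i).map (toRed C) := by
  obtain ⟨hc, fr, hα, hβ⟩ := hFRM G C
  have h1 : ∀ j ≤ i, ExAt X fr.α j := by
    intro j hj
    rw [hα]
    exact (nonzero_iff X i).1 h j hj
  have h2 : CycB fr.β Y i z := by
    rw [hβ]
    cases i with
    | zero => trivial
    | succ i => exact hz
  obtain ⟨y, hy⟩ := genR fr X Y Z K F hF i (hR fr hβ).1 (hR fr hβ).2 h1 z h2
  rw [hβ] at hy
  exact ⟨y, hy⟩

/-- part (1) -/
theorem rel1 (X : FinRes G) (Y Z : Cx C) (K : EMap C X Z)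
    (F : ∀ i, Matrix (Fin (Y.n i)) (Fin (X.n i)) (ZG G))
    (hF : ∀ i, (Y.d i).map (incl C) * F i = F (i + 1) * X.d i)
    (i : ℕ) (hK : K.Subexponential {i, i + 1}) (hn : NonzeroOn Y Z i (KFm K F i)) :
    NonzeroUpTo X i := by
  by_contra h
  obtain ⟨z, hz, hz'⟩ := hn
  obtain ⟨y, hy⟩ := genRed X Y Z K F hF i (fun fr hβ => ⟨grow_ofE K hK fr hβ i (by simp),
    grow_ofE K hK fr hβ (i + 1) (by simp)⟩) h z hz
  exact hz' y hy

end

end Pool.Agent.V5helper87.ZM
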