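import Pool.Agent.V5helper87.ZM.Rel

/-!
Project ZM: the relative form of the theorem for mapping tori.
-/

set_option autoImplicit false

open scoped Matrix Pointwise

namespace Pool.Agent.V5helper87.ZM

open Pool.Agent.H919R4.ZS Pool.Agent.TH38.CX Pool.Agent.TH38.ZT

noncomputable section

variable {G : Type} [Group G]

section gen

variable {C : Type} [Group C]

/-- the map `x ↦ x M` as an additive homomorphism -/
def vm {a b : ℕ} (M : Matrix (Fin a) (Fin b) (ZG C)) : (Fin a → ZG C) →+ (Fin b → ZG C) where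
  toFun x := x ᵥ* M
  map_zero' := Matrix.zero_vecMul _
  map_add' x y := Matrix.add_vecMul _ _ _

lemma vm_apply {a b : ℕ} (M : Matrix (Fin a) (Fin b) (ZG C)) (x : Fin a → ZG C) :
    vm M x = x ᵥ* M := rfl

/-- `z` is a cycle over `B` -/
def CycF {B : Type} [Ring B] (β : ZG C →+* B) (Y : FinRes C) : ∀ i : ℕ, (Fin (Y.n i) → B) → Prop
  | 0, _ => True
  | i + 1, z => z ᵥ* (Y.d i).map β = 0

lemma htp_cyc {B : Type} [Ring B] (β : ZG C →+* B) (Y : FinRes C)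
    (P : ∀ i, Matrix (Fin (Y.n i)) (Fin (Y.n i)) (ZG C))
    (H : ∀ i, Matrix (Fin (Y.n i)) (Fin (Y.n (i + 1))) (ZG C))
    (hH0 : P 0 - 1 = H 0 * Y.d 0)
    (hH : ∀ i, P (i + 1) - 1 = Y.d i * H i + H (i + 1) * Y.d (i + 1))
    (i : ℕ) (z : Fin (Y.n i) → B) (hz : CycF β Y i z) :
    z ᵥ* (P i).map β = z + (z ᵥ* (H i).map β) ᵥ* (Y.d i).map β := by
  cases i with
  | zero =>
    have h1 : (P 0).map β = 1 + (H 0).map β * (Y.d 0).map β := by
      rw [← Matrix.map_mul, ← hH0, Matrix.map_sub _ (fun a b => map_sub β a b), map_one_mat]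
      abel
    rw [h1, Matrix.vecMul_add, Matrix.vecMul_one, Matrix.vecMul_vecMul]
  | succ i =>
    have h1 : (P (i + 1)).map β = 1 + ((Y.d i).map β * (H i).map β +
        (H (i + 1)).map β * (Y.d (i + 1)).map β) := by
      rw [← Matrix.map_mul, ← Matrix.map_mul, ← Matrix.map_add _ (fun a b => map_add β a b), ← hH,
        Matrix.map_sub _ (fun a b => map_sub β a b), map_one_mat]
      abel
    rw [h1, Matrix.vecMul_add, Matrix.vecMul_add, Matrix.vecMul_one,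
      ← Matrix.vecMul_vecMul z, hz, Matrix.zero_vecMul, zero_add, ← Matrix.vecMul_vecMul]

lemma rel_fin {B : Type} [Ring B] (β : ZG C →+* B) (Y : FinRes C) (Z : Cx C)
    (p : ∀ i, Matrix (Fin (Y.n i)) (Fin (Z.n i)) (ZG C))
    (hp : ∀ i, Y.d i * p i = p (i + 1) * Z.d i)
    (P : ∀ i, Matrix (Fin (Y.n i)) (Fin (Y.n i)) (ZG C))
    (H : ∀ i, Matrix (Fin (Y.n i)) (Fin (Y.n (i + 1))) (ZG C))
    (hH0 : P 0 - 1 = H 0 * Y.d 0)
    (hH : ∀ i, P (i + 1) - 1 = Y.d i * H i + H (i + 1) * Y.d (i + 1))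
    (i : ℕ) (z : Fin (Y.n i) → B) (hz : CycF β Y i z) (y : Fin (Z.n (i + 1)) → B)
    (hy : y ᵥ* (Z.d i).map β = z ᵥ* (P i * p i).map β) :
    ∃ y' : Fin (Z.n (i + 1)) → B, y' ᵥ* (Z.d i).map β = z ᵥ* (p i).map β := by
  refine ⟨y - (z ᵥ* (H i).map β) ᵥ* (p (i + 1)).map β, ?_⟩
  rw [Matrix.sub_vecMul, hy, Matrix.map_mul, ← Matrix.vecMul_vecMul,
    htp_cyc β Y P H hH0 hH i z hz, Matrix.add_vecMul, Matrix.vecMul_vecMul _ ((p (i + 1)).map β),
    ← Matrix.map_mul, ← hp, Matrix.map_mul, ← Matrix.vecMul_vecMul]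
  abel

end gen

/-- the composite of the retraction with `p` -/
def emap {C : Subgroup G} {X : FinRes G} {Y : FinRes C} (R : Retract C X Y) (Z : Cx C)
    (p : ∀ i, Matrix (Fin (Y.n i)) (Fin (Z.n i)) (ZG C))
    (hp : ∀ i, Y.d i * p i = p (i + 1) * Z.d i) : EMap C X Z where
  K := fun i g a => R.K i g a ᵥ* p i
  equivariant := by
    intro i c g a j
    simp only [Matrix.vecMul, dotProduct]
    rw [Finset.mul_sum]
    refine Finset.sum_congr rfl fun l _ => ?_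
    rw [R.equi i c g a l, mul_assoc]
    rfl
  chain := by
    intro i g a
    change ∑ b, lin (fun h => vm (p i) (R.K i (g * h) b)) (X.d i a b) = _
    rw [Matrix.vecMul_vecMul, ← hp, ← Matrix.vecMul_vecMul, ← R.chain i g a, ← vm_apply (p i),
      map_sum]
    refine Finset.sum_congr rfl fun b _ => ?_
    rw [map_lin]

lemma KFm_emap {C : Subgroup G} {X : FinRes G} {Y : FinRes C} (R : Retract C X Y) (Z : Cx C)
    (p : ∀ i, Matrix (Fin (Y.n i)) (Fin (Z.n i)) (ZG C))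
    (hp : ∀ i, Y.d i * p i = p (i + 1) * Z.d i)
    (F : ∀ i, Matrix (Fin (Y.n i)) (Fin (X.n i)) (ZG G)) (i : ℕ) :
    KFm (Y := toCx Y) (emap R Z p hp) F i = KF R F i * p i := by
  funext a
  have h1 : (KF R F i * p i) a = vm (p i) (KF R F i a) := rfl
  have h2 : KF R F i a = ∑ b, lin (fun h => R.K i h b) (F i a b) := by
    funext j
    rw [Finset.sum_apply]
    change (∑ b, lin (M := ZG C) (fun h => R.K i h b j) (F i a b)) = _
    refine Finset.sum_congr rfl fun b _ => ?_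
    rw [lin_apply]
  rw [h1, h2, map_sum]
  funext j
  rw [Finset.sum_apply]
  change (∑ b, lin (M := ZG C) (fun h => (R.K i h b ᵥ* p i) j) (F i a b)) = _
  refine Finset.sum_congr rfl fun b _ => ?_
  rw [map_lin, lin_apply]
  rfl

/-- retractions -/
theorem retr {C : Subgroup G} (X : FinRes G) (Y : FinRes C) (K : EMap C X (toCx Y))
    (hK : ∀ g a, ∑ j, augm C (K.K 0 g a j) * Y.aug j = X.aug a) (i : ℕ)
    (hs : K.Subexponential {i, i + 1}) (h : Nontrivial (Y.homology (toRed C) i)) :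
    NonzeroUpTo X i := by
  by_contra hcon
  refine not_nontrivial_iff_subsingleton.2 ((exAt_iff Y (toRed C) i).1 ?_) h
  exact gen hFRM hPUF hSUP hNEU hSER hCHM hHTP X Y ⟨K.K, K.equivariant, hK, K.chain⟩ i
    (fun fr hβ => ⟨grow_ofE K hs fr hβ i (by simp), grow_ofE K hs fr hβ (i + 1) (by simp)⟩)
    ((nonzero_iff X i).1 hcon)

/-- mapping tori, relative form -/
theorem rel2 (π : G →* Multiplicative ℤ) (t : G)
    (ht : π t = Multiplicative.ofAdd 1) (X : FinRes G) (Y : FinRes π.ker) (Z : Cx π.ker)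
    (p : ∀ i, Matrix (Fin (Y.n i)) (Fin (Z.n i)) (ZG π.ker))
    (hp : ∀ i, Y.d i * p i = p (i + 1) * Z.d i) (i : ℕ)
    (h1 : SubexpLift Y Z p t {i, i + 1}) (h2 : SubexpLift Y Z p t⁻¹ {i, i + 1})
    (hn : NonzeroOn (toCx Y) Z i (p i)) : NonzeroUpTo X i := by
  obtain ⟨τ, τ', a1, a2, a3, a4⟩ := h1
  obtain ⟨σ, σ', b1, b2, b3, b4⟩ := h2
  have p1 : ∀ g h, (π (g * h)).toAdd = (π g).toAdd + (π h).toAdd := fun g h => by
    rw [map_mul, toAdd_mul]
  have p2 : ∀ g, g ∈ π.ker ↔ (π g).toAdd = 0 := fun g => by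
    rw [MonoidHom.mem_ker]
    exact Iff.rfl
  have p3 : (π t).toAdd = 1 := by rw [ht]; rfl
  obtain ⟨R, hR⟩ := hKEX G π.ker (fun g => (π g).toAdd) t p1 p2 p3 X Y τ σ ⟨a1, a2⟩ ⟨b1, b2⟩
  obtain ⟨F, hF0, hF⟩ := hCHM G π.ker X Y
  obtain ⟨hK0, hK⟩ := hHTP G π.ker X Y R F hF0 hF
  obtain ⟨H, hH0, hH⟩ := exists_homotopy Y (KF R F) hK0 hK
  have hinv : ∀ (s : G) (i' : ℕ) (ρ : Matrix (Fin (Y.n i')) (Fin (Y.n i')) (ZG π.ker))
      (ρ' : Matrix (Fin (Z.n i')) (Fin (Z.n i')) (ZG π.ker)),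
      ρ * p i' = (p i').map (conj π.ker s) * ρ' → ∀ v : Fin (Y.n i') → ZG π.ker,
      sem π.ker s ρ v ᵥ* p i' = sem π.ker s ρ' (v ᵥ* p i') := by
    intro s i' ρ ρ' hρ v
    rw [sem, Matrix.vecMul_vecMul, hρ, ← Matrix.vecMul_vecMul, sem]
    congr 1
    funext b
    exact (RingHom.map_vecMul (cj π.ker s) (p i') v b).symm
  have key : ∀ fr : Frame π.ker (RedC G) (RedC π.ker), fr.β = toRed π.ker →
      ∀ i' ∈ ({i, i + 1} : Set ℕ), Grow fr ((emap R Z p hp).K i') := by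
    intro fr hβ i' hi'
    refine hKGR G π.ker (fun g => (π g).toAdd) t p1 p2 p3 _ _ fr _ _ ((emap R Z p hp).K i') ?_
    refine hKBD G π.ker (fun g => (π g).toAdd) t p1 p2 p3 _ fr.β fr.norm_β _ _ (τ' i') (σ' i')
      ((emap R Z p hp).K i') ((emap R Z p hp).equivariant i') ?_ ?_ ?_
    · obtain ⟨N, hN1, hN2⟩ := hR i'
      refine ⟨N, fun g hg a => ?_, fun g hg a => ?_⟩
      · change R.K i' (t * g) a ᵥ* p i' = sem π.ker t (τ' i') (R.K i' g a ᵥ* p i')
        rw [hN1 g hg a, hinv t i' _ _ (a3 i')]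
      · change R.K i' (t⁻¹ * g) a ᵥ* p i' = sem π.ker t⁻¹ (σ' i') (R.K i' g a ᵥ* p i')
        rw [hN2 g hg a, hinv t⁻¹ i' _ _ (b3 i')]
    · intro l hl
      obtain ⟨c, hc⟩ := a4 i' hi' l hl
      refine ⟨c, fun k a b => ?_⟩
      rw [hβ]
      exact hc k a b
    · intro l hl
      obtain ⟨c, hc⟩ := b4 i' hi' l hl
      refine ⟨c, fun k a b => ?_⟩
      rw [hβ]
      exact hc k a b
  by_contra hcon
  obtain ⟨z, hz, hz'⟩ := hn
  obtain ⟨y, hy⟩ := genRed X (toCx Y) Z (emap R Z p hp) F hF i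
    (fun fr hβ => ⟨key fr hβ i (by simp), key fr hβ (i + 1) (by simp)⟩) hcon z hz
  rw [KFm_emap] at hy
  have hz2 : CycF (toRed π.ker) Y i z := by
    cases i with
    | zero => trivial
    | succ i => exact hz
  obtain ⟨y', hy'⟩ := rel_fin (toRed π.ker) Y Z p hp (KF R F) H hH0 hH i z hz2 y hy
  exact hz' y' hy'

/-- the converse -/
theorem conv (π : G →* Multiplicative ℤ) (t : G)
    (ht : π t = Multiplicative.ofAdd 1) (X : FinRes G) (Y : FinRes π.ker) (N : ℕ)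
    (h : NonzeroUpTo X N) : NonzeroUpTo Y N := by
  obtain ⟨E, c, rep, hrep, hst⟩ := hLIN G π t ht
  by_contra hcon
  have key : ∀ (H : Subgroup G), H = π.ker → ∃ W : FinRes H, ¬ NonzeroUpTo W N := by
    rintro H rfl
    exact ⟨Y, hcon⟩
  choose W hW using fun i a => key _ (hst i a)
  obtain ⟨j, hj, hj'⟩ := h
  refine not_nontrivial_iff_subsingleton.2 ((exAt_iff X (toRed G) j).1 ?_) hj'
  refine van E c rep hrep W j (fun i hi a => Or.inr fun k hk => ?_) X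
  have h1 := (nonzero_iff (W i a) N).1 (hW i a) k (by omega)
  exact (exAt_iff _ _ _).1 h1

/-- nonzero homology in terms of `NonzeroOn` -/
theorem nonzeroOn_of {C : Type} [Group C] (Y : FinRes C) (i : ℕ)
    (h : Nontrivial (Y.homology (toRed C) i)) :
    NonzeroOn (toCx Y) (toCx Y) i (1 : Matrix (Fin (Y.n i)) (Fin (Y.n i)) (ZG C)) := by
  by_contra hcon
  refine not_nontrivial_iff_subsingleton.2 ((exAt_iff Y (toRed C) i).1 ?_) h
  have h1 : ∀ z, IsCycle (toCx Y) i z → ∃ y : Fin (Y.n (i + 1)) → RedC C,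
      y ᵥ* (Y.d i).map (toRed C) = z := by
    intro z hz
    by_contra h2
    refine hcon ⟨z, hz, fun y hy => h2 ⟨y, ?_⟩⟩
    rw [map_one_mat] at hy
    have h5 : z ᵥ* (1 : Matrix (Fin (Y.n i)) (Fin (Y.n i)) (RedC C)) = z := Matrix.vecMul_one z
    exact hy.trans h5
  cases i with
  | zero => exact fun x => h1 x trivial
  | succ i => exact fun x hx => h1 x hx

theorem absolute (π : G →* Multiplicative ℤ) (t : G)
    (ht : π t = Multiplicative.ofAdd 1) (X : FinRes G) (Y : FinRes π.ker)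
    (h1 : SubexpLift Y (toCx Y) (fun _ => 1) t Set.univ)
    (h2 : SubexpLift Y (toCx Y) (fun _ => 1) t⁻¹ Set.univ) (N : ℕ) (h : NonzeroUpTo Y N) :
    NonzeroUpTo X N := by
  obtain ⟨i, hi, hi'⟩ := h
  have h3 : ∀ s : G, SubexpLift Y (toCx Y) (fun _ => 1) s Set.univ →
      SubexpLift Y (toCx Y) (fun _ => 1) s {i, i + 1} := by
    rintro s ⟨τ, τ', e1, e2, e3, e4⟩
    exact ⟨τ, τ', e1, e2, e3, fun j _ => e4 j (Set.mem_univ j)⟩
  obtain ⟨j, hj, hj'⟩ := rel2 π t ht X Y (toCx Y) (fun _ => 1)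
    (fun i => by rw [Matrix.mul_one, Matrix.one_mul]) i (h3 _ h1) (h3 _ h2) (nonzeroOn_of Y i hi')
  exact ⟨j, hj.trans hi, hj'⟩

end

end Pool.Agent.V5helper87.ZM
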