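import Pool.Agent.V5helper87.ZM.Defs

/-!
Project ZM (hard row MP_48737f_gt): the statements of the jobs, with proofs in the doc comments.

Rows everywhere: `x ᵥ* M`. `C` is a subgroup of `G`, `ZG G = ℤ[G]`, `sg g` the element `g` of `ZG G`,
`lin f r = ∑_h r(h) f(h)`, `cs C g` the right coset `C g` (as the element `g⁻¹ C` of `G ⧸ C`; so `q`
is the coset `C q.out⁻¹`), `fr : Frame C A B` the operator algebraic data (`A = C*_r(G)`,
`B = C*_r(C)`, `α : ℤ[G] → A`, `β : ℤ[C] → B`, `ψ : B → A`, `e : A → B` the conditional expectation).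
-/

set_option autoImplicit false

open scoped Matrix Pointwise

namespace Pool.Agent.V5helper87.ZM

open Pool.Agent.H919R4.ZS Pool.Agent.TH38.CX Pool.Agent.TH38.ZT

noncomputable section

/-- DEN (100 lines, operator algebras). Density of the elements which move supports by a finite set.
(`cond C` is the conditional expectation of `Pool.Agent.TH38.CX.Cond`, `cond T = res 1 ∘ T ∘ ext`.)

Proof. `valR x` is in the topological closure of `groupRing G` (`redCstar`); take `y ∈ groupRing G` near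
to it. By `Subring.closure_induction`, for every `y ∈ groupRing G` there is a finite set `S` as
claimed: for `y = c λ(h)` take `S = {h}`: `cond (x' y λ(g⁻¹)) = c cond (x' λ((g h⁻¹)⁻¹))` (`cond` is
`ℂ`-linear) and `(g h⁻¹) s⁻¹ = g (s h)⁻¹ ∉ C` for `s ∈ T`. For a product `y y'` take `S * S'`, for a sum
`S ∪ S'`, for `-y` the same, for `0` the empty set, for `1` the set `{1}`. -/
def S_DEN : Prop :=
  ∀ (G : Type) [Group G] (C : Subgroup G) (x : RedC G) (ε : ℝ), 0 < ε →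
    ∃ y : RedC G, ‖x - y‖ < ε ∧ ∃ S : Set G, S.Finite ∧ ∀ (x' : RedC G) (T : Set G),
      (∀ g : G, (∀ s ∈ T, g * s⁻¹ ∉ C) → Cond.cond C (valR (x' * toRed G (sg g⁻¹))) = 0) →
      ∀ g : G, (∀ s ∈ T * S, g * s⁻¹ ∉ C) → Cond.cond C (valR (x' * y * toRed G (sg g⁻¹))) = 0

/-- FRM (150 lines, operator algebras, uses S_DEN). The frame of `C*_r(C) ⊆ C*_r(G)`; `RedC G` carries
the operator norm (`norm_redC`).

Proof. Use `Pool.Agent.TH38.CX.Cond` (see the proof of `exists_cond` there): `ψ x = ⟨t x, _⟩`,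
`e x = ⟨cond C (valR x), cond_mem ..⟩`; `ψ.comp (toRed C) = (toRed G).comp incl`, `e (ψ x) = x`.
`cond T = res 1 ∘ T ∘ ext`, where `‖res‖, ‖ext‖ ≤ 1`: `norm_e`. For `e (ψ y * x) = y * e x`: `Rel`:
`res g (ψ y f) = y (res g f)` with `g = 1`. For `e (x * ψ y) = e x * y`: `ψ y (ext f) = ext (y f)`; this
holds since the set of the `y : RedC C` with this property is closed and contains the generators
(`lregL_ext`), or by evaluating `res g` of both sides for all `g` (for `g ∉ C`, `res g (ext f) = 0`; for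
`g ∈ C`, `y` commutes with the right translation). `e_not`: `cond_lreg_not`. `norm_α`: `norm_shift`.
`dense`: S_DEN. Completeness of `RedC C`: closed in a complete space. -/
def S_FRM : Prop :=
  ∀ (G : Type) [Group G] (C : Subgroup G), CompleteSpace (RedC C) ∧
    ∃ fr : Frame C (RedC G) (RedC C), fr.α = toRed G ∧ fr.β = toRed C

/-- PUS (80 lines). `push` is additive on elements with finite support. Proof: `finsum_sub_distrib`;
the supports are finite: if `q` is not in the finite set `cs C '' T`, then `g = q.out⁻¹` satisfies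
`g * s⁻¹ ∉ C` for all `s ∈ T` (else `q = mk q.out = mk s⁻¹ = cs C s`, `QuotientGroup.eq`), so all the
terms `e (x a * α (sg q.out))` vanish.  Second part (norm bound): the same, `finsum_eq_sum_of_support_subset`
with the finset `Q = cs C '' T`, `norm_sum_le`, `norm_mul_le`, `norm_e`, `norm_α`. -/
def S_PUS : Prop :=
  ∀ (G : Type) [Group G] (C : Subgroup G) (A B : Type) [NormedRing A] [NormedRing B]
    (fr : Frame C A B) (m n : ℕ) (K : G → Fin m → Fin n → ZG C),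
    (∀ (x y : Fin m → A) (T T' : Set G), T.Finite → T'.Finite → SuppV fr x T → SuppV fr y T' →
      push fr K (x - y) = push fr K x - push fr K y) ∧
    (∀ (x : Fin m → A) (T : Set G), T.Finite → SuppV fr x T → ∀ (r R : ℝ), 0 ≤ r →
      (∀ a, ‖x a‖ ≤ r) →
      (∀ Q : Finset (G ⧸ C), (∀ q ∈ Q, ∃ g ∈ T, cs C g = q) →
        ∑ q ∈ Q, ∑ a, ∑ b, ‖fr.β (K q.out⁻¹ a b)‖ ≤ R) →
      ∀ j, ‖push fr K x j‖ ≤ r * R)

/-- PUC (150 lines). `push` is a chain map: if `∑_b K(g D_{a b})_b = K'(g)_a E`, then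
`K_*(x α(D)) = K'_*(x) β(E)` for `x` with finite support.

Proof. Write the value at `j` of the left side as `∑ᶠ_q ∑_b ∑_a e (x_a α(D_ab) α(q.out)) β(K(q.out⁻¹)_b,j)`.
`α(D_ab) = lin (fun h => α (sg h)) D_ab`, so this is the sum over `a`, `b` and `h` (with the
coefficient `D_ab(h)`) of `∑ᶠ_q Φ(q)`, `Φ(q) = e (x_a α(sg (h q.out))) β(K(q.out⁻¹)_b,j)`. For every
`p : G` with `mk p = q` one has `Φ(q) = e (x_a α(sg (h p))) β(K(p⁻¹)_b,j)`: if `p = q.out * c`, `c ∈ C`,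
then `K(p⁻¹) = K(c⁻¹ q.out⁻¹) = sg c⁻¹ * K(q.out⁻¹)`, and `e (x α(sg (h q.out)) α(sg c)) =
e (..) β(sg c)` by `ψ_β` and `e_mul_ψ`. So `∑ᶠ_q Φ(q) = ∑ᶠ_q Φ(h⁻¹ • q)` (`finsum_comp_equiv` with
`MulAction.toPerm h⁻¹`), and for `p = h⁻¹ * q.out` (a representative of `h⁻¹ • q`)
`Φ(h⁻¹ • q) = e (x_a α(sg q.out)) β(K(q.out⁻¹ * h)_b,j)`. Summing up over `h`, `b`: by the hypothesis this
is `∑ᶠ_q ∑_a e (x_a α(sg q.out)) β((K'(q.out⁻¹)_a ᵥ* E)_j)`, the right side. All the sums are finite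
(support of `x`; see PUS). -/
def S_PUC : Prop :=
  ∀ (G : Type) [Group G] (C : Subgroup G) (A B : Type) [NormedRing A] [NormedRing B]
    (fr : Frame C A B) (m m' n n' : ℕ) (K : G → Fin m → Fin n → ZG C)
    (K' : G → Fin m' → Fin n' → ZG C) (D : Matrix (Fin m') (Fin m) (ZG G))
    (E : Matrix (Fin n') (Fin n) (ZG C)), Equi K → Equi K' →
    (∀ g a, ∑ b, lin (fun h => K (g * h) b) (D a b) = K' g a ᵥ* E) →
    ∀ (x : Fin m' → A) (T : Set G), T.Finite → SuppV fr x T →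
      push fr K (x ᵥ* D.map fr.α) = push fr K' x ᵥ* E.map fr.β

/-- PUF (80 lines). The value of `push` at `ψ(z) α(F)`.

Proof. By additivity in `F` (finitely many `a`, `b`, `h`; supports finite) it is enough to see
`∑ᶠ_q e (ψ(z) α(sg h) α(sg q.out)) β(K(q.out⁻¹)_b,j) = z β(K(h)_b,j)`. Now
`e (ψ z * α(sg (h q.out))) = z * e (α (sg (h q.out)))` vanishes if `h q.out ∉ C`, that is, if
`q ≠ mk h⁻¹`. For `q = mk h⁻¹`, `c = h q.out ∈ C`, it is `z β(sg c)` (`ψ_β`, `e_mul_ψ`, `e_one`), and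
`K(h) = K(c q.out⁻¹) = sg c * K(q.out⁻¹)`. (`finsum_eq_single`.) -/
def S_PUF : Prop :=
  ∀ (G : Type) [Group G] (C : Subgroup G) (A B : Type) [NormedRing A] [NormedRing B]
    (fr : Frame C A B) (m n k : ℕ) (K : G → Fin m → Fin n → ZG C), Equi K →
    ∀ (F : Matrix (Fin k) (Fin m) (ZG G)) (z : Fin k → B),
      push fr K ((fun a => fr.ψ (z a)) ᵥ* F.map fr.α) =
        z ᵥ* Matrix.of fun a j => fr.β (∑ b, lin (fun h => K h b j) (F a b))

/-- SUP (80 lines). Supports. (1) enlarging the set; (2) multiplication by a matrix over `ℤ[G]`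
(`S` = the union of the supports of the entries; `e (x α(sg h) α(sg g⁻¹)) = e (x α(sg (g h⁻¹)⁻¹))` and
`(g h⁻¹) s⁻¹ = g (s h)⁻¹`); (3) `ψ(z) α(F)` has finite support
(`e (ψ z * α(sg (h g⁻¹))) = z * e (α (sg (h g⁻¹)))` vanishes if `h g⁻¹ ∉ C`, that is `g h⁻¹ ∉ C`). -/
def S_SUP : Prop :=
  ∀ (G : Type) [Group G] (C : Subgroup G) (A B : Type) [NormedRing A] [NormedRing B]
    (fr : Frame C A B),
    (∀ (m : ℕ) (x : Fin m → A) (T T' : Set G), T ⊆ T' → SuppV fr x T → SuppV fr x T') ∧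
    (∀ (m n : ℕ) (D : Matrix (Fin m) (Fin n) (ZG G)), ∃ S : Set G, S.Finite ∧
      ∀ (x : Fin m → A) (T : Set G), SuppV fr x T → SuppV fr (x ᵥ* D.map fr.α) (T * S)) ∧
    (∀ (m n : ℕ) (F : Matrix (Fin m) (Fin n) (ZG G)) (z : Fin m → B), ∃ S : Set G, S.Finite ∧
      SuppV fr ((fun a => fr.ψ (z a)) ᵥ* F.map fr.α) S)

/-- NEU (130 lines, uses S_SUP). A contraction may be replaced by an approximate one with finite support.

Proof. `D' s' + s D = 1`. Let `σ`, `σ'` be matrices whose entries are near (distance `< ε`) to those of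
`s`, `s'` and have finite sets `S` as in `fr.dense` (take the union of these finite sets: a larger `S`
is allowed). Put `η = 1 - D' σ' - σ D = D' (s' - σ') + (s - σ) D`. The entries of `η` are arbitrarily
small, so `‖(x ᵥ* η) b‖ ≤ r / 2` if `‖x a‖ ≤ r` (`norm_sum_le`). `η` has finite support: S_SUP (2) for
`D`, `D'` (the matrices `D`, `D'` come from `ℤ[G]`), the choice of `σ`, `σ'`; sums and differences
of elements with support in `T S₁`, `T S₂` have support in `T (S₁ ∪ S₂)`, and `x` in `T {1}`. If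
`x D' = 0`, then `x η = x - x σ D`, and `(x η) D' = - x σ D D' = 0`. -/
def S_NEU : Prop :=
  ∀ (G : Type) [Group G] (C : Subgroup G) (A B : Type) [NormedRing A] [NormedRing B]
    (fr : Frame C A B) (k l m : ℕ) (D' : Matrix (Fin m) (Fin l) (ZG G))
    (D : Matrix (Fin k) (Fin m) (ZG G)) (s' : Matrix (Fin l) (Fin m) A)
    (s : Matrix (Fin m) (Fin k) A), D * D' = 0 →
    D'.map fr.α * s' + s * D.map fr.α = 1 →
    ∃ (σ : Matrix (Fin m) (Fin k) A) (η : Matrix (Fin m) (Fin m) A) (S : Set G) (c : ℝ),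
      S.Finite ∧ (∀ (x : Fin m → A) (T : Set G), SuppV fr x T → SuppV fr (x ᵥ* σ) (T * S)) ∧
      (∀ (x : Fin m → A) (T : Set G), SuppV fr x T → SuppV fr (x ᵥ* η) (T * S)) ∧
      (∀ (x : Fin m → A) (r : ℝ), (∀ a, ‖x a‖ ≤ r) → ∀ b, ‖(x ᵥ* η) b‖ ≤ r / 2) ∧
      (∀ (x : Fin m → A) (r : ℝ), (∀ a, ‖x a‖ ≤ r) → ∀ b, ‖(x ᵥ* σ) b‖ ≤ c * r) ∧
      (∀ x : Fin m → A, x ᵥ* D'.map fr.α = 0 →
        x = (x ᵥ* σ) ᵥ* D.map fr.α + x ᵥ* η ∧ (x ᵥ* η) ᵥ* D'.map fr.α = 0)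

/-- SER (150 lines, uses S_PUS, S_PUC, S_SUP). The image of a cycle with finite support is a
boundary. `σ`, `η`, `S`, `c` are as in NEU.

Proof. Let `x_k = x η^k` (`x_0 = x`, `x_(k+1) = x_k ᵥ* η`), all cycles, `‖x_k a‖ ≤ r 2⁻ᵏ`, supported in
`S₀^(k+1)` with `S₀ = T ∪ S ∪ {1}` (powers increase as `1 ∈ S₀`; in any case `T * S^k ⊆ S₀^(k+1)`). By
`push`-additivity and PUC, `push K x_k - push K x_(k+1) = push K (x_k σ D) = push K' (x_k σ) ᵥ* β(E)`. By the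
norm bound of PUS and the growth of `K'` with `l = 3/2`, `‖push K' (x_k σ) j‖ ≤ c r 2⁻ᵏ c' (3/2)^(k+2)`,
summable; `y = ∑ₖ push K' (x_k σ)`. Similarly `push K x_k → 0` by the growth of `K`. So
`y ᵥ* β(E) = lim (push K x - push K x_N) = push K x` (`Finset.sum_range_sub'`, continuity of `ᵥ*`). -/
def S_SER : Prop :=
  ∀ (G : Type) [Group G] (C : Subgroup G) (A B : Type) [NormedRing A] [NormedRing B]
    [CompleteSpace B] (fr : Frame C A B) (k l m n n' : ℕ) (D' : Matrix (Fin m) (Fin l) (ZG G))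
    (D : Matrix (Fin k) (Fin m) (ZG G)) (E : Matrix (Fin n') (Fin n) (ZG C))
    (K : G → Fin m → Fin n → ZG C) (K' : G → Fin k → Fin n' → ZG C), Equi K → Equi K' →
    (∀ g a, ∑ b, lin (fun h => K (g * h) b) (D a b) = K' g a ᵥ* E) →
    Grow fr K → Grow fr K' →
    ∀ (σ : Matrix (Fin m) (Fin k) A) (η : Matrix (Fin m) (Fin m) A) (S : Set G) (c : ℝ),
      S.Finite → (∀ (x : Fin m → A) (T : Set G), SuppV fr x T → SuppV fr (x ᵥ* σ) (T * S)) →
      (∀ (x : Fin m → A) (T : Set G), SuppV fr x T → SuppV fr (x ᵥ* η) (T * S)) →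
      (∀ (x : Fin m → A) (r : ℝ), (∀ a, ‖x a‖ ≤ r) → ∀ b, ‖(x ᵥ* η) b‖ ≤ r / 2) →
      (∀ (x : Fin m → A) (r : ℝ), (∀ a, ‖x a‖ ≤ r) → ∀ b, ‖(x ᵥ* σ) b‖ ≤ c * r) →
      (∀ x : Fin m → A, x ᵥ* D'.map fr.α = 0 →
        x = (x ᵥ* σ) ᵥ* D.map fr.α + x ᵥ* η ∧ (x ᵥ* η) ᵥ* D'.map fr.α = 0) →
      ∀ (x : Fin m → A) (T : Set G), T.Finite → SuppV fr x T → x ᵥ* D'.map fr.α = 0 →
        ∃ y : Fin n' → B, y ᵥ* E.map fr.β = push fr K x

/-- CHM (80 lines). A chain map `F : Y → X` over the inclusion `ℤ[C] → ℤ[G]`.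
Proof: copy of `Pool.Agent.TH38.ZT.exists_chain_map` (`X → X'` there), with
`augm G (incl C a) = augm C a`. -/
def S_CHM : Prop :=
  ∀ (G : Type) [Group G] (C : Subgroup G) (X : FinRes G) (Y : FinRes C),
    ∃ F : ∀ i, Matrix (Fin (Y.n i)) (Fin (X.n i)) (ZG G),
      (∀ k, eps X (F 0 k) = Y.aug k) ∧ ∀ i, (Y.d i).map (incl C) * F i = F (i + 1) * X.d i

/-- HTP (100 lines). `K F` is a chain endomorphism of `Y` over the identity of `ℤ`.

Proof. For a row `y` over `ℤ[G]` put `κ_i(y) = ∑_b lin (fun h => K i h b) (y b)`. Then `κ_i` is additive,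
`κ_i(incl(r) • y) = r • κ_i(y)` (by `Equi`; check on `r = sg c`, `y b = sg h`), and `κ_i(y ᵥ* X.d i) = κ_(i+1)(y) ᵥ* Y.d i`
(by `R.chain`; check on the entries of `y`, `y a = sg g`: `κ_i` of the row `b ↦ sg g * D_ab` is
`∑_b lin (fun h => K i (g h) b) D_ab`). The `a`-th row of `KF i` is `κ_i` of the `a`-th row of `F i`. First claim:
`eps Y (κ_0 y) = eps X y` (`R.aug`, augm). -/
def S_HTP : Prop :=
  ∀ (G : Type) [Group G] (C : Subgroup G) (X : FinRes G) (Y : FinRes C) (R : Retract C X Y)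
    (F : ∀ i, Matrix (Fin (Y.n i)) (Fin (X.n i)) (ZG G)),
    (∀ k, eps X (F 0 k) = Y.aug k) → (∀ i, (Y.d i).map (incl C) * F i = F (i + 1) * X.d i) →
    (∀ k, eps Y (fun j => ∑ b, lin (fun h => R.K 0 h b j) (F 0 k b)) = Y.aug k) ∧
    ∀ i, Y.d i * (Matrix.of fun a j => ∑ b, lin (fun h => R.K i h b j) (F i a b)) =
      (Matrix.of fun a j => ∑ b, lin (fun h => R.K (i + 1) h b j) (F (i + 1) a b)) * Y.d i

/-- FIL (80 lines, elementary). `C` is the kernel of `π : G → ℤ`, `π t = 1`. An equivariant family `w`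
of boundaries which is eventually invariant has an equivariant, eventually invariant family of
preimages.

Proof. We may assume `0 ≤ N`. Choose `y k` with `dd (y k) = w (t ^ k)`, `k : ℤ`. Let `v k` be
`P^[k - N] (y N)` for `k ≥ N`, `P'^[-N - k] (y (-N))` for `k ≤ -N` (and `k < N`), and `y k` otherwise.
Then `dd (v k) = w (t ^ k)` (by `dd (P v) = PW (dd v)` and `PW (w g) = w (t g)`), `v (k+1) = P (v k)` for
`k ≥ N`, `v (k-1) = P' (v k)` for `k ≤ -N`, `k < N` (take `N + 1` at the end). Let `f g = aV ⟨g t^(-π g), _⟩ (v (π g))`. -/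
def S_FIL : Prop :=
  ∀ (G : Type) [Group G] (C : Subgroup G) (π : G → ℤ) (t : G), (∀ g h, π (g * h) = π g + π h) →
    (∀ g, g ∈ C ↔ π g = 0) → π t = 1 →
    ∀ (V W : Type) (aV : C → V → V) (aW : C → W → W) (dd : V → W) (P P' : V → V) (PW PW' : W → W),
    (∀ c c' v, aV (c * c') v = aV c (aV c' v)) → (∀ c v, dd (aV c v) = aW c (dd v)) →
    (∀ v, dd (P v) = PW (dd v)) → (∀ v, dd (P' v) = PW' (dd v)) →
    (∀ (c c' : C), (c' : G) = t * c * t⁻¹ → ∀ v, P (aV c v) = aV c' (P v)) →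
    (∀ (c c' : C), (c' : G) = t⁻¹ * c * t → ∀ v, P' (aV c v) = aV c' (P' v)) →
    ∀ w : G → W, (∀ (c : C) g, w (c * g) = aW c (w g)) → (∀ g, ∃ v, dd v = w g) →
    (∃ N : ℤ, (∀ g, N ≤ π g → w (t * g) = PW (w g)) ∧ ∀ g, π g ≤ -N → w (t⁻¹ * g) = PW' (w g)) →
    ∃ f : G → V, (∀ (c : C) g, f (c * g) = aV c (f g)) ∧ (∀ g, dd (f g) = w g) ∧
      ∃ N : ℤ, (∀ g, N ≤ π g → f (t * g) = P (f g)) ∧ ∀ g, π g ≤ -N → f (t⁻¹ * g) = P' (f g)

/-- the ring automorphism `c ↦ t c t⁻¹` of `ℤ[C]`, `C` normal -/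
def cj {G : Type} [Group G] (C : Subgroup G) [C.Normal] (t : G) : ZG C →+* ZG C :=
  MonoidAlgebra.mapDomainRingHom ℤ (MulAut.conjNormal t : MulAut C).toMonoidHom

/-- the semilinear map `y ↦ (t y t⁻¹) τ` of `ℤ[C]^n` -/
def sem {G : Type} [Group G] (C : Subgroup G) [C.Normal] (t : G) {n : ℕ}
    (τ : Matrix (Fin n) (Fin n) (ZG C)) (y : Fin n → ZG C) : Fin n → ZG C :=
  (fun b => cj C t (y b)) ᵥ* τ

/-- The matrices `τ` define a chain map `y ↦ (t y t⁻¹) τ` of `Y` over the identity of `ℤ` which is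
semilinear with respect to the conjugation by `t`. -/
structure IsLift {G : Type} [Group G] {C : Subgroup G} [C.Normal] (Y : FinRes C) (t : G)
    (τ : ∀ j, Matrix (Fin (Y.n j)) (Fin (Y.n j)) (ZG C)) : Prop where
  aug : ∀ a, eps Y (τ 0 a) = Y.aug a
  comm : ∀ j, (Y.d j).map (cj C t) * τ j = τ (j + 1) * Y.d j

/-- KEX (150 lines, uses S_FIL). Construction of a retraction which is eventually invariant.

Proof. Recursion on the degree (`Pool.Agent.TH38.ZT.dep_seq`, as in `exists_chain_map`) with the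
predicate on `K : G → Fin (X.n i) → Fin (Y.n i) → ZG C`: `Equi K`, eventually invariant (`∃ N`), and
`Good i K`: for `i = 0`: `eps Y (K g a) = X.aug a`; for `i = j + 1`:
`(∑_b lin (fun h => K (g * h) b) (X.d i a b)) ᵥ* Y.d j = 0`. Use S_FIL for every `a`, with
`V = Fin (Y.n i) → ZG C`, `aV c y = sg c • y`, `P = sem t (τ i)`, `P' = sem t⁻¹ (σ i)`.
Start: `W = ℤ`, `aW c = id`, `PW = PW' = id`, `dd = eps Y`, `w g = X.aug a`.
Step: `W = Fin (Y.n i) → ZG C`, `dd y = y ᵥ* Y.d i`, `PW = sem t (τ i)`, `w g = ∑_b lin (fun h => K (g * h) b) (X.d i a b)`.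
It is a boundary by `exact_zero`/`exact_succ`: for `i = 0`, `eps Y (w g) = ∑_b augm(X.d 0 a b) X.aug b = 0` (`eps_d`).
`w` is eventually invariant: for `L` with `|π h| ≤ L` on the supports of `X.d i a b`, if
`π g ≥ N + L`, then `K(t g h) = P (K (g h))` for all `h` in the support, and `P` is additive. For the
`Good` of the new `K'`: `∑_b lin (fun h => K' (g * h) b) (X.d (i+1) a b) ᵥ* Y.d i =
∑_b lin (fun h => K'(g h)_b ᵥ* Y.d i) .. = ∑_b ∑_c lin (fun h => lin (fun h' => K (g h h') c) (X.d i b c)) (X.d (i+1) a b)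
= ∑_c lin (fun h => K (g h) c) ((X.d (i+1) * X.d i) a c) = 0`. -/
def S_KEX : Prop :=
  ∀ (G : Type) [Group G] (C : Subgroup G) [C.Normal] (π : G → ℤ) (t : G),
    (∀ g h, π (g * h) = π g + π h) → (∀ g, g ∈ C ↔ π g = 0) → π t = 1 →
    ∀ (X : FinRes G) (Y : FinRes C) (τ σ : ∀ j, Matrix (Fin (Y.n j)) (Fin (Y.n j)) (ZG C)),
    IsLift Y t τ → IsLift Y t⁻¹ σ →
    ∃ R : Retract C X Y, ∀ i, ∃ N : ℤ,
      (∀ g, N ≤ π g → ∀ a, R.K i (t * g) a = sem C t (τ i) (R.K i g a)) ∧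
      (∀ g, π g ≤ -N → ∀ a, R.K i (t⁻¹ * g) a = sem C t⁻¹ (σ i) (R.K i g a))

/-- KBD (120 lines). The norms of an eventually invariant `K` grow subexponentially.

Proof. For `k ≥ 0`, `K(t^(N+k))_a = P^[k] (K(t^N)_a)`, `P = sem t τ`. For every `y`,
`P^[k] y = ∑_b cj(t^k)(y_b) • P^[k] (e_b)`, `e_b = Pi.single b 1` (induction on `k`: `P` is additive and
`P (r • y) = cj(t)(r) • P y`), and `‖β (cj(t^k) r)‖ ≤ ∑ |r(c)|` (`norm_β`). So `‖β(K(t^(N+k))_a j)‖ ≤ const * l^k`.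
Similarly for `k ≤ -N`; there remain finitely many `k` in between. Finally `g = c t^(π g)`, so
`‖β(K(g)_a j)‖ = ‖β(sg c) β(K(t^(π g))_a j)‖ ≤ ‖β(K(t^(π g))_a j)‖`. -/
def S_KBD : Prop :=
  ∀ (G : Type) [Group G] (C : Subgroup G) [C.Normal] (π : G → ℤ) (t : G),
    (∀ g h, π (g * h) = π g + π h) → (∀ g, g ∈ C ↔ π g = 0) → π t = 1 →
    ∀ (B : Type) [NormedRing B] (β : ZG C →+* B), (∀ c, ‖β (sg c)‖ ≤ 1) →
    ∀ (m n : ℕ) (τ σ : Matrix (Fin n) (Fin n) (ZG C)) (K : G → Fin m → Fin n → ZG C), Equi K →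
    (∃ N : ℤ, (∀ g, N ≤ π g → ∀ a, K (t * g) a = sem C t τ (K g a)) ∧
      (∀ g, π g ≤ -N → ∀ a, K (t⁻¹ * g) a = sem C t⁻¹ σ (K g a))) →
    (∀ l : ℝ, 1 < l → ∃ c : ℝ, ∀ k a b, ‖β ((sem C t τ)^[k] (Pi.single a 1) b)‖ ≤ c * l ^ k) →
    (∀ l : ℝ, 1 < l → ∃ c : ℝ, ∀ k a b, ‖β ((sem C t⁻¹ σ)^[k] (Pi.single a 1) b)‖ ≤ c * l ^ k) →
    ∀ l : ℝ, 1 < l → ∃ c : ℝ, ∀ g a b, ‖β (K g a b)‖ ≤ c * l ^ (π g).natAbs

/-- KGR (100 lines). From this bound to `Grow`.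

Proof. `S` finite, `|π| ≤ L` on `S` (`L ≥ 1`), so `|π| ≤ k L` on `S ^ k`. The cosets `q ∈ Q` are
distinguished by `π(q.out⁻¹) ∈ [-kL, kL]` (`q = cs C g`, `g ∈ S ^ k`: `q.out⁻¹ g⁻¹ ∈ C`), so `Q` has at
most `2kL + 1` elements. Apply the hypothesis with `μ`, `μ^(2L) = l`: the sum is at most
`(2kL+1) m n |c| μ^(kL)` and `(2kL+1) μ^(kL) ≤ c' l^k` as `μ^(kL) = l^(k/2)`. -/
def S_KGR : Prop :=
  ∀ (G : Type) [Group G] (C : Subgroup G) (π : G → ℤ) (t : G),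
    (∀ g h, π (g * h) = π g + π h) → (∀ g, g ∈ C ↔ π g = 0) → π t = 1 →
    ∀ (A B : Type) [NormedRing A] [NormedRing B] (fr : Frame C A B)
    (m n : ℕ) (K : G → Fin m → Fin n → ZG C),
    (∀ l : ℝ, 1 < l → ∃ c : ℝ, ∀ g a b, ‖fr.β (K g a b)‖ ≤ c * l ^ (π g).natAbs) → Grow fr K

end

end Pool.Agent.V5helper87.ZM
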