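import Pool.Agent.TH38.CX.Main

/-!
Project ZM, part 2: the line.
-/

set_option autoImplicit false

namespace Pool.Agent.V5helper87.ZM

open Pool.Agent.H919R4.ZS Pool.Agent.TH38.CX Pool.Agent.TH38.ZT

/-- LIN (100 lines). Let `π : G → ℤ` be a homomorphism with `π t = 1`. Then `G` acts on the line: the acyclic
complex `E` with `E 0 = E 1 = ℤ` (`g n = π(g) + n`) and no cells of dimension at least `2`; one orbit
(`c 0 = c 1 = 1`, `c i = 0` for `i ≥ 2`), and all stabilisers are the kernel of `π`.

Proof. `E.E 0 = E.E 1 = ℤ`, `E.E i = Empty` for `i ≥ 2`; `g • n = (π g).toAdd + n`;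
`bd 0 (single n r) = single (n + 1) r - single n r` (that is, `mapDomain (· + 1) x - x`), `bd i = 0` for
`i ≥ 1`. `exact_zero`: the sum of the coefficients of `bd 0 y` is zero; conversely `single n 1 - single 0 1`
is in the range for all `n : ℤ` (`Int.induction_on`), and a function `x` with sum zero is
`∑ x(n) (single n 1 - single 0 1)`. `exact_succ 0`: `bd 0` is injective: if `mapDomain (· + 1) x = x`,
then `x (n + 1) = x n` for all `n`, so `x` is constant, so zero since the support is finite and `ℤ` is
infinite. `exact_succ i`, `i ≥ 1`: all is zero. Orbits: `n = t ^ n • 0`. -/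
def S_LIN : Prop :=
  ∀ (G : Type) [Group G] (π : G →* Multiplicative ℤ) (t : G), π t = Multiplicative.ofAdd 1 →
    ∃ (E : AcyclicGComplex G) (c : ℕ → ℕ) (rep : ∀ i, Fin (c i) → E.E i),
      (∀ i (e : E.E i), ∃! a, e ∈ MulAction.orbit G (rep i a)) ∧
      ∀ i a, MulAction.stabilizer G (rep i a) = π.ker

end Pool.Agent.V5helper87.ZM
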